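import Pool.Agent.CorD.Fin

/-!
# Restriction of a correspondence along a covering of the second curve
-/

set_option autoImplicit false

open Module

noncomputable section

namespace Pool.Agent.CorE

open Pool.Agent.EllHiggs Pool.Agent.CorD

private theorem cmp_rng {k A M : Type} [Field k] [Field A] [Field M] [Algebra k A] [Algebra k M]
    (σ : A →ₐ[k] M) [Algebra A M] (hs : ∀ x, algebraMap A M x = σ x) :
    finrank A M = finrank σ.fieldRange M ∧
      (FiniteDimensional A M → FiniteDimensional σ.fieldRange M) ∧
      (FiniteDimensional σ.fieldRange M → FiniteDimensional A M) := by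
  let e : A ≃+* σ.fieldRange :=
    RingEquiv.ofBijective (σ.rangeRestrict : A →ₐ[k] σ.range).toRingHom
      ⟨fun x y h => σ.toRingHom.injective (congrArg Subtype.val h), σ.rangeRestrict_surjective⟩
  have he : ∀ x, ((e x : σ.fieldRange) : M) = σ x := fun x => rfl
  have h1 : (algebraMap σ.fieldRange M).comp (e : A →+* σ.fieldRange) =
      (RingEquiv.refl M : M →+* M).comp (algebraMap A M) := by
    ext x
    simp only [RingHom.comp_apply]
    exact (he x).trans (hs x).symm
  have h2 : (algebraMap A M).comp (e.symm : σ.fieldRange →+* A) =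
      (RingEquiv.refl M : M →+* M).comp (algebraMap σ.fieldRange M) := by
    ext x
    simp only [RingHom.comp_apply]
    have h3 := he (e.symm x)
    rw [RingEquiv.apply_symm_apply] at h3
    exact (hs _).trans h3.symm
  exact ⟨Algebra.finrank_eq_of_equiv_equiv e (RingEquiv.refl M) h1,
    fun h => Module.Finite.of_equiv_equiv e (RingEquiv.refl M) h1,
    fun h => Module.Finite.of_equiv_equiv e.symm (RingEquiv.refl M) h2⟩

private theorem cmp_tow {k M : Type} [Field k] [Field M] [Algebra k M]
    (M' : IntermediateField k M) (E : IntermediateField k M')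
    (E' : IntermediateField k M) (hE : IntermediateField.lift E = E')
    [FiniteDimensional E' M] :
    FiniteDimensional E M' ∧ finrank E M' * finrank M' M = finrank E' M ∧ 0 < finrank M' M := by
  subst hE
  let e : E ≃+* IntermediateField.lift E := (IntermediateField.liftAlgEquiv E).toRingEquiv
  have he : ∀ x, ((e x : IntermediateField.lift E) : M) = ((x : M') : M) := fun x => rfl
  have h1 : (algebraMap (IntermediateField.lift E) M).comp
      (e : E →+* IntermediateField.lift E) =
      (RingEquiv.refl M : M →+* M).comp (algebraMap E M) := by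
    ext x
    rfl
  have h2 : (algebraMap E M).comp (e.symm : IntermediateField.lift E →+* E) =
      (RingEquiv.refl M : M →+* M).comp (algebraMap (IntermediateField.lift E) M) := by
    ext x
    have h3 := he (e.symm x)
    rw [RingEquiv.apply_symm_apply] at h3
    exact h3.symm
  have hf : FiniteDimensional E M := Module.Finite.of_equiv_equiv e.symm (RingEquiv.refl M) h2
  have h4 : finrank E M = finrank (IntermediateField.lift E) M :=
    Algebra.finrank_eq_of_equiv_equiv e (RingEquiv.refl M) h1
  have h5 : finrank E M' * finrank M' M = finrank (IntermediateField.lift E) M := by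
    rw [Module.finrank_mul_finrank, h4]
  have h6 : 0 < finrank (IntermediateField.lift E) M := finrank_pos
  exact ⟨FiniteDimensional.left E M' M, h5, Nat.pos_of_mul_pos_left (h5 ▸ h6)⟩

private def cmp_cod {k A M : Type} [Field k] [Field A] [Field M] [Algebra k A] [Algebra k M]
    (σ : A →ₐ[k] M) (M' : IntermediateField k M) (h : σ.fieldRange ≤ M') : A →ₐ[k] M' :=
  σ.codRestrict M'.toSubalgebra fun x => h ⟨x, rfl⟩

private theorem cmp_cod_lift {k A M : Type} [Field k] [Field A] [Field M] [Algebra k A]
    [Algebra k M] (σ : A →ₐ[k] M) (M' : IntermediateField k M) (h : σ.fieldRange ≤ M') :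
    IntermediateField.lift (cmp_cod σ M' h).fieldRange = σ.fieldRange := by
  ext x
  constructor
  · rintro ⟨y, ⟨z, hz⟩, hy⟩
    refine ⟨z, ?_⟩
    rw [← hy]
    have := congrArg (fun t : M' => (t : M)) hz
    exact this
  · rintro ⟨z, hz⟩
    exact ⟨⟨x, h ⟨z, hz⟩⟩, ⟨z, Subtype.ext hz⟩, rfl⟩

/-- A correspondence of `X` and `Y'` and a covering `Y' → Y` give a correspondence of `X` and `Y`. -/
theorem cmp {k L A B : Type} [Field k] [Field L] [Field A] [Field B] [Algebra k L] [Algebra k A]
    [Algebra k B] (p : A →ₐ[k] B) [FiniteDimensional p.fieldRange B] (Z : Corr k L B) :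
    ∃ Z' : Corr k L A, Z'.a * Z'.b ≤ finrank p.fieldRange B * (Z.a * Z.b) := by
  set M' : IntermediateField k Z.M := Z.s.fieldRange ⊔ (Z.t.comp p).fieldRange with hM'
  have hs1 : Z.s.fieldRange ≤ M' := le_sup_left
  have ht1 : (Z.t.comp p).fieldRange ≤ M' := le_sup_right
  letI a0 : Algebra A B := p.toRingHom.toAlgebra
  letI a1 : Algebra B Z.M := Z.t.toRingHom.toAlgebra
  letI a2 : Algebra A Z.M := (Z.t.comp p).toRingHom.toAlgebra
  haveI : IsScalarTower A B Z.M := IsScalarTower.of_algebraMap_eq fun x => rfl
  obtain ⟨p1, _, p3⟩ := cmp_rng p (fun _ => rfl)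
  obtain ⟨r1, _, r3⟩ := cmp_rng Z.t (fun _ => rfl)
  obtain ⟨q1, q2, _⟩ := cmp_rng (Z.t.comp p) (fun _ => rfl)
  haveI : FiniteDimensional A B := p3 inferInstance
  haveI : FiniteDimensional B Z.M := r3 Z.ft
  haveI : FiniteDimensional A Z.M := FiniteDimensional.trans A B Z.M
  haveI hft : FiniteDimensional (Z.t.comp p).fieldRange Z.M := q2 inferInstance
  have hb : finrank (Z.t.comp p).fieldRange Z.M = finrank p.fieldRange B * Z.b := by
    rw [← q1, ← Module.finrank_mul_finrank A B Z.M, p1, r1]
    rfl
  obtain ⟨f1, g1, pos⟩ := cmp_tow M' (cmp_cod _ M' hs1).fieldRange _ (cmp_cod_lift _ M' hs1)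
  obtain ⟨f2, g2, _⟩ := cmp_tow M' (cmp_cod _ M' ht1).fieldRange _ (cmp_cod_lift _ M' ht1)
  refine ⟨{ M := M', s := cmp_cod _ M' hs1, t := cmp_cod _ M' ht1, gen := ?_, fs := f1, ft := f2 },
    ?_⟩
  · apply IntermediateField.lift_injective
    rw [IntermediateField.lift_sup, cmp_cod_lift, cmp_cod_lift, ← hM', IntermediateField.lift_top]
  · rw [hb] at g2
    change finrank (cmp_cod _ M' hs1).fieldRange M' * finrank M' Z.M = Z.a at g1
    change finrank (cmp_cod _ M' hs1).fieldRange M' * finrank (cmp_cod _ M' ht1).fieldRange M' ≤ _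
    have h1 : finrank (cmp_cod _ M' hs1).fieldRange M' ≤ Z.a := by
      rw [← g1]
      exact Nat.le_mul_of_pos_right _ pos
    have h2 : finrank (cmp_cod _ M' ht1).fieldRange M' ≤ finrank p.fieldRange B * Z.b := by
      rw [← g2]
      exact Nat.le_mul_of_pos_right _ pos
    calc _ ≤ Z.a * (finrank p.fieldRange B * Z.b) := Nat.mul_le_mul h1 h2
      _ = _ := by ring

end Pool.Agent.CorE
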