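import Pool.Agent.CorE.Trc

/-!
# The generic point of an elliptic curve
-/

set_option autoImplicit false

open Module WeierstrassCurve WeierstrassCurve.Affine Polynomial

open scoped Classical

noncomputable section

namespace Pool.Agent.CorE

open Pool.Agent.EllHiggs Pool.Agent.CorD

section gen

variable {k : Type} [Field k] (E : Affine k)

/-- The `x`-coordinate in the function field. -/
def xg : E.FunctionField := algebraMap E.CoordinateRing E.FunctionField (CoordinateRing.mk E (C X))

/-- The `y`-coordinate in the function field. -/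
def yg : E.FunctionField := algebraMap E.CoordinateRing E.FunctionField (CoordinateRing.mk E X)

-- BEGIN geq
/-- ROW geq. The image of the equation: `CoordinateRing.mk E E.polynomial = 0` (`AdjoinRoot.mk_self`); `Affine.equation_iff`
over the function field (`map_a₁` ...). -/
theorem gen_eq : (E⁄E.FunctionField).Equation (xg E) (yg E) := by
  have h0 : CoordinateRing.mk E E.polynomial = 0 := AdjoinRoot.mk_self
  obtain ⟨φ, hφ⟩ : ∃ φ : k[X][X] →+* E.FunctionField, ∀ p, φ p =
      algebraMap E.CoordinateRing E.FunctionField (CoordinateRing.mk E p) :=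
    ⟨(algebraMap E.CoordinateRing E.FunctionField).comp (CoordinateRing.mk E), fun _ => rfl⟩
  have h1 : φ E.polynomial = 0 := by
    rw [hφ, h0, map_zero]
  have hc : ∀ a : k, φ (C (C a)) = algebraMap k E.FunctionField a := by
    intro a
    rw [hφ, IsScalarTower.algebraMap_apply k E.CoordinateRing E.FunctionField]
    rfl
  have hx : φ (C X) = xg E := hφ _
  have hy : φ X = yg E := hφ _
  have h2 : E.polynomial = X ^ 2 + (C (C E.a₁) * C X + C (C E.a₃)) * X -
      ((C X) ^ 3 + C (C E.a₂) * (C X) ^ 2 + C (C E.a₄) * C X + C (C E.a₆)) := by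
    unfold Affine.polynomial
    simp only [map_add, map_mul, map_pow]
  replace h1 := (congrArg φ h2).symm.trans h1
  simp only [map_add, map_sub, map_mul, map_pow, hc, hx, hy] at h1
  rw [equation_iff]
  show yg E ^ 2 + algebraMap k E.FunctionField E.a₁ * xg E * yg E +
    algebraMap k E.FunctionField E.a₃ * yg E = xg E ^ 3 + algebraMap k E.FunctionField E.a₂ * xg E ^ 2 +
      algebraMap k E.FunctionField E.a₄ * xg E + algebraMap k E.FunctionField E.a₆
  linear_combination h1
-- END geq

-- BEGIN gxt
/-- ROW gxt. `p(xg) = 0` for `p : k[X]` gives `mk E (C p) = 0`, so `p = 0` (`CoordinateRing.smul_basis_eq_zero` or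
`FaithfulSMul k[X] CoordinateRing`), injectivity of `algebraMap` to the fraction field. -/
theorem gen_tr : Transcendental k (xg E) := by
  rw [transcendental_iff]
  intro p hp
  have h1 : ∀ q : k[X], aeval (CoordinateRing.mk E (C X)) q = CoordinateRing.mk E (C q) := by
    intro q
    induction q using Polynomial.induction_on' with
    | add p q hp hq => rw [map_add, hp, hq, map_add, map_add]
    | monomial n a =>
      rw [aeval_monomial, ← C_mul_X_pow_eq_monomial, map_mul, map_mul, map_pow, map_pow]
      rfl
  have h2 : aeval (xg E) p = algebraMap E.CoordinateRing E.FunctionField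
      (CoordinateRing.mk E (C p)) := by
    rw [← h1]
    exact aeval_algebraMap_apply _ _ _
  rw [h2] at hp
  have h3 : CoordinateRing.mk E (C p) = 0 :=
    (map_eq_zero_iff _ (IsFractionRing.injective E.CoordinateRing E.FunctionField)).1 hp
  have h4 : p • (1 : E.CoordinateRing) + (0 : k[X]) • CoordinateRing.mk E X = 0 := by
    rw [CoordinateRing.smul, h3]
    simp
  exact (CoordinateRing.smul_basis_eq_zero h4).1
-- END gxt

-- BEGIN gff
private theorem gff_pol (p : k[X]) :
    algebraMap E.CoordinateRing E.FunctionField (CoordinateRing.mk E (C p)) ∈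
      IntermediateField.adjoin k {xg E, yg E} := by
  have hx : xg E ∈ IntermediateField.adjoin k {xg E, yg E} :=
    IntermediateField.subset_adjoin k _ (Set.mem_insert _ _)
  induction p using Polynomial.induction_on' with
  | add p q hp hq =>
    rw [C_add, map_add, map_add]
    exact add_mem hp hq
  | monomial n a =>
    have h : algebraMap E.CoordinateRing E.FunctionField (CoordinateRing.mk E (C (monomial n a))) =
        algebraMap k E.FunctionField a * xg E ^ n := by
      rw [← C_mul_X_pow_eq_monomial, C_mul, C_pow, map_mul, map_mul, map_pow,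
        map_pow, xg, IsScalarTower.algebraMap_apply k E.CoordinateRing E.FunctionField a]
      rfl
    rw [h]
    exact mul_mem (IntermediateField.algebraMap_mem _ a) (pow_mem hx n)

/-- ROW gff. `k(xg, yg)` is the whole function field: every element is a quotient of two elements `p(x) + q(x) y`
(`IsLocalization.mk'_surjective` / `IsFractionRing.div_surjective`, `CoordinateRing.exists_smul_basis_eq`). -/
theorem gen_top : IntermediateField.adjoin k {xg E, yg E} = ⊤ := by
  have hy : yg E ∈ IntermediateField.adjoin k {xg E, yg E} :=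
    IntermediateField.subset_adjoin k _ (Set.mem_insert_of_mem _ (Set.mem_singleton _))
  have key : ∀ c : E.CoordinateRing, algebraMap E.CoordinateRing E.FunctionField c ∈
      IntermediateField.adjoin k {xg E, yg E} := by
    intro c
    obtain ⟨p, q, rfl⟩ := CoordinateRing.exists_smul_basis_eq c
    rw [CoordinateRing.smul, CoordinateRing.smul, mul_one, map_add, map_mul]
    exact add_mem (gff_pol E p) (mul_mem (gff_pol E q) hy)
  rw [eq_top_iff]
  intro z _
  obtain ⟨a, b, _, rfl⟩ := IsFractionRing.div_surjective (A := E.CoordinateRing) z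
  exact div_mem (key a) (key b)
-- END gff

-- BEGIN gdg
/-- ROW gdg. `yg` is a root of a monic polynomial of degree 2 over `k(xg)` (`gen_eq`), so `[k(x)(y) : k(x)] ≤ 2`
(`IntermediateField.adjoin.finrank`, `minpoly.natDegree_le...`/`minpoly.min`), and `k(x)(y)` is everything
(`gen_top`, `IntermediateField.adjoin_adjoin_left` or `restrictScalars`). `IsFunField` = (`xg`, finite). -/
theorem gen_deg : IsFunField k E.FunctionField ∧ fdeg k (xg E) ≤ 2 := by
  have htop : IntermediateField.adjoin (IntermediateField.adjoin k {xg E}) {yg E} = ⊤ := by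
    rw [← IntermediateField.restrictScalars_eq_top_iff (K := k),
      IntermediateField.adjoin_adjoin_left, Set.singleton_union]
    exact gen_top E
  obtain ⟨xK, hxK⟩ : ∃ xK : IntermediateField.adjoin k {xg E}, (xK : E.FunctionField) = xg E :=
    ⟨⟨xg E, IntermediateField.mem_adjoin_simple_self k (xg E)⟩, rfl⟩
  obtain ⟨c1, hc1⟩ : ∃ c1 : IntermediateField.adjoin k {xg E}, c1 =
      algebraMap k _ E.a₁ * xK + algebraMap k _ E.a₃ := ⟨_, rfl⟩
  obtain ⟨c0, hc0⟩ : ∃ c0 : IntermediateField.adjoin k {xg E}, c0 =
      -(xK ^ 3 + algebraMap k _ E.a₂ * xK ^ 2 + algebraMap k _ E.a₄ * xK + algebraMap k _ E.a₆) :=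
    ⟨_, rfl⟩
  obtain ⟨P, hP⟩ : ∃ P : (IntermediateField.adjoin k {xg E})[X], P = X ^ 2 + (C c1 * X + C c0) :=
    ⟨_, rfl⟩
  have hlow : (C c1 * X + C c0 : (IntermediateField.adjoin k {xg E})[X]).degree < (2 : ℕ) := by
    refine lt_of_le_of_lt degree_linear_le ?_
    norm_num
  have hmon : P.Monic := by
    rw [hP]
    exact monic_X_pow_add hlow
  have hdeg : P.natDegree = 2 := by
    rw [hP]
    refine natDegree_eq_of_degree_eq_some ?_
    rw [degree_add_eq_left_of_degree_lt (by rw [degree_X_pow]; exact hlow), degree_X_pow]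
  have hroot : aeval (yg E) P = 0 := by
    have h1 := (WeierstrassCurve.Affine.equation_iff _ _).1 (gen_eq E)
    have ha : ∀ c : k, algebraMap (IntermediateField.adjoin k {xg E}) E.FunctionField
        (algebraMap k _ c) = algebraMap k E.FunctionField c := fun c => rfl
    have hx : algebraMap (IntermediateField.adjoin k {xg E}) E.FunctionField xK = xg E := hxK
    rw [hP, map_add, map_add, map_mul, map_pow, aeval_X, aeval_C, aeval_C, hc1, hc0]
    simp only [map_add, map_mul, map_neg, map_pow, ha, hx]
    change yg E ^ 2 + algebraMap k E.FunctionField E.a₁ * xg E * yg E +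
      algebraMap k E.FunctionField E.a₃ * yg E = xg E ^ 3 +
      algebraMap k E.FunctionField E.a₂ * xg E ^ 2 + algebraMap k E.FunctionField E.a₄ * xg E +
      algebraMap k E.FunctionField E.a₆ at h1
    linear_combination h1
  have hint : IsIntegral (IntermediateField.adjoin k {xg E}) (yg E) := ⟨P, hmon, hroot⟩
  have hfd : FiniteDimensional (IntermediateField.adjoin k {xg E})
      (IntermediateField.adjoin (IntermediateField.adjoin k {xg E}) {yg E}) :=
    IntermediateField.adjoin.finiteDimensional hint
  have hrk := IntermediateField.adjoin.finrank hint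
  have hle : (minpoly (IntermediateField.adjoin k {xg E}) (yg E)).natDegree ≤ 2 := by
    rw [← hdeg]
    exact natDegree_le_natDegree (minpoly.min _ _ hmon hroot)
  rw [htop] at hfd hrk
  refine ⟨⟨xg E, gen_tr E, ?_⟩, ?_⟩
  · exact (IntermediateField.topEquiv (F := IntermediateField.adjoin k {xg E})
      (E := E.FunctionField)).toLinearEquiv.finiteDimensional
  · unfold fdeg
    rw [← IntermediateField.finrank_top', hrk]
    exact hle
-- END gdg

variable {E}

/-- The generic point. -/
def Gp [E.IsElliptic] : Pt E E.FunctionField :=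
  Point.some (xg E) (yg E) (equation_iff_nonsingular.1 (gen_eq E))

variable {F : Type} [Field F] [Algebra k F]

-- BEGIN gpm
private theorem gpm_fin {K1 K2 : IntermediateField k F} (h : K1 ≤ K2)
    (h1 : FiniteDimensional K1 F) : FiniteDimensional K2 F := by
  let _ : Algebra K1 K2 := (IntermediateField.inclusion h).toRingHom.toAlgebra
  have : IsScalarTower K1 K2 F := IsScalarTower.of_algebraMap_eq fun _ => rfl
  exact Module.Finite.of_restrictScalars_finite K1 K2 F

/-- ROW gpm. `hgt (pm t Gp) = fdeg k (t (xg E))`; `Algebra E.FunctionField F` by `t`, `rng` (`CorD/Cor.lean`), `fd_tower`;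
`t.fieldRange` of finite degree: `fin_adj` for `t (xg E)` (transcendental: `gen_tr`) and the tower. -/
theorem hgt_pm [E.IsElliptic] (hF : IsFunField k F) (t : E.FunctionField →ₐ[k] F) :
    FiniteDimensional t.fieldRange F ∧
      hgt (pm t (Gp (E := E))) = fdeg k (xg E) * finrank t.fieldRange F := by
  have hx : Transcendental k (t (xg E)) := fun hc =>
    gen_tr E ((isAlgebraic_algHom_iff t t.injective).1 hc)
  have hle : IntermediateField.adjoin k {t (xg E)} ≤ t.fieldRange := by
    rw [IntermediateField.adjoin_le_iff]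
    rintro _ rfl
    exact ⟨xg E, rfl⟩
  have hf : FiniteDimensional t.fieldRange F := gpm_fin hle (fin_adj hF hx)
  refine ⟨hf, ?_⟩
  let _ : Algebra E.FunctionField F := t.toRingHom.toAlgebra
  obtain ⟨hfd, hfr, hst⟩ := rng t (fun _ => rfl)
  rw [← hfr]
  exact fd_tower (k := k) (L := E.FunctionField) (F := F) (xg E)
-- END gpm

-- BEGIN emb
private theorem emb_eq {x y : F} (h : (E⁄F).Equation x y) :
    eval₂ ((aeval x : k[X] →ₐ[k] F) : k[X] →+* F) y E.polynomial = 0 := by
  have h1 := h
  rw [equation_iff] at h1
  have e1 : (E⁄F).a₁ = algebraMap k F E.a₁ := rfl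
  have e2 : (E⁄F).a₂ = algebraMap k F E.a₂ := rfl
  have e3 : (E⁄F).a₃ = algebraMap k F E.a₃ := rfl
  have e4 : (E⁄F).a₄ = algebraMap k F E.a₄ := rfl
  have e6 : (E⁄F).a₆ = algebraMap k F E.a₆ := rfl
  rw [e1, e2, e3, e4, e6] at h1
  rw [WeierstrassCurve.Affine.polynomial]
  simp only [eval₂_add, eval₂_sub, eval₂_mul, eval₂_pow, eval₂_C, eval₂_X, RingHom.coe_coe,
    map_add, map_mul, map_pow, aeval_X, aeval_C]
  linear_combination h1

/-- the homomorphism from the coordinate ring -/
private def emb_hom {x y : F} (h : (E⁄F).Equation x y) : E.CoordinateRing →ₐ[k] F :=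
  AdjoinRoot.liftAlgHom _ (aeval x) y (emb_eq h)

private theorem emb_hom_C {x y : F} (h : (E⁄F).Equation x y) (p : k[X]) :
    emb_hom h (CoordinateRing.mk E (C p)) = aeval x p := by
  unfold emb_hom
  rw [AdjoinRoot.liftAlgHom_mk, eval₂_C]
  rfl

private theorem emb_hom_Y {x y : F} (h : (E⁄F).Equation x y) :
    emb_hom h (CoordinateRing.mk E X) = y := by
  unfold emb_hom
  rw [AdjoinRoot.liftAlgHom_mk, eval₂_X]

private theorem emb_inj {x y : F} (h : (E⁄F).Equation x y) (hx : Transcendental k x) :
    Function.Injective (emb_hom h) := by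
  rw [injective_iff_map_eq_zero]
  intro g hg
  obtain ⟨p, q, rfl⟩ := CoordinateRing.exists_smul_basis_eq g
  have h1 : algebraMap k[X] E.CoordinateRing (Algebra.norm k[X]
      (p • (1 : E.CoordinateRing) + q • CoordinateRing.mk E X)) =
      CoordinateRing.mk E ((C p + C q * X) *
        (C p + C q * (-(X : k[X][X]) - C (C E.a₁ * X + C E.a₃)))) :=
    CoordinateRing.coe_norm_smul_basis p q
  have h2 : CoordinateRing.mk E (C p + C q * X) =
      p • (1 : E.CoordinateRing) + q • CoordinateRing.mk E X := by
    rw [CoordinateRing.smul, CoordinateRing.smul, map_add, map_mul, mul_one]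
  have h3 : emb_hom h (algebraMap k[X] E.CoordinateRing (Algebra.norm k[X]
      (p • (1 : E.CoordinateRing) + q • CoordinateRing.mk E X))) = 0 := by
    rw [h1, map_mul, map_mul, h2, hg, zero_mul]
  have h4 : emb_hom h (algebraMap k[X] E.CoordinateRing (Algebra.norm k[X]
      (p • (1 : E.CoordinateRing) + q • CoordinateRing.mk E X))) =
      aeval x (Algebra.norm k[X] (p • (1 : E.CoordinateRing) + q • CoordinateRing.mk E X)) :=
    emb_hom_C h _
  rw [h4] at h3
  have h5 := (transcendental_iff.1 hx) _ h3
  have h6 := CoordinateRing.degree_norm_smul_basis (W' := E) p q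
  rw [h5, degree_zero] at h6
  have h7 : 2 • p.degree = ⊥ := by
    have := le_max_left (2 • p.degree) (2 • q.degree + 3)
    rw [← h6] at this
    exact le_bot_iff.1 this
  have h8 : 2 • q.degree + 3 = ⊥ := by
    have := le_max_right (2 • p.degree) (2 • q.degree + 3)
    rw [← h6] at this
    exact le_bot_iff.1 this
  have hp : p = 0 := by
    rw [two_nsmul, WithBot.add_eq_bot, or_self, degree_eq_bot] at h7
    exact h7
  have hq : q = 0 := by
    rw [WithBot.add_eq_bot, two_nsmul, WithBot.add_eq_bot, or_self, degree_eq_bot] at h8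
    rcases h8 with h8 | h8
    · exact h8
    · exact absurd h8 (WithBot.coe_ne_bot (a := (3 : ℕ)))
  rw [hp, hq, zero_smul, zero_smul, add_zero]

private theorem emb_aux [E.IsElliptic] (x y : F) (hxy : (E⁄F).Nonsingular x y) (hx : Transcendental k x) :
    ∃ f : E.FunctionField →ₐ[k] F, pm f (Gp (E := E)) = Point.some x y hxy := by
  have hinj := emb_inj hxy.1 hx
  refine ⟨IsFractionRing.liftAlgHom hinj, ?_⟩
  have e1 : (IsFractionRing.liftAlgHom hinj : E.FunctionField →ₐ[k] F) (xg E) = x := by
    unfold xg
    rw [IsFractionRing.coe_liftAlgHom, IsFractionRing.lift_algebraMap]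
    exact (emb_hom_C hxy.1 X).trans (aeval_X x)
  have e2 : (IsFractionRing.liftAlgHom hinj : E.FunctionField →ₐ[k] F) (yg E) = y := by
    unfold yg
    rw [IsFractionRing.coe_liftAlgHom, IsFractionRing.lift_algebraMap]
    exact emb_hom_Y hxy.1
  have e3 : ∀ (a b : F) (h : (E⁄F).Nonsingular a b), a = x → b = y →
      (Point.some a b h : Pt E F) = Point.some x y hxy := by
    rintro _ _ _ rfl rfl
    rfl
  exact e3 _ _ _ e1 e2

/-- ROW emb. `S = some x y` with `x` transcendental (`fd_pos`). The ring homomorphism `CoordinateRing → F`,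
`x ↦ x`, `y ↦ y` (`AdjoinRoot.lift` / `eval₂` of the bivariate polynomials) is injective: an element `p + q y` of the kernel
has norm `N` in `k[X]` with `N(x) = 0`, so `N = 0` and the element is `0` (`CoordinateRing` is a domain, `Algebra.norm_eq_zero_iff`);
or: if `p(x) + q(x) y = 0` in `F` with `q ≠ 0` then `y = -p(x)/q(x)` and the equation gives a polynomial identity
`p² - a₁ X p q - a₃ p q - q² (X³ + ...) = 0` (`x` transcendental), degrees: even on one side, odd on the other
(`CoordinateRing.degree_norm_smul_basis`). Then `IsFractionRing.liftAlgHom`. -/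
theorem emb [E.IsElliptic] (hF : IsFunField k F) (S : Pt E F) (h : 0 < hgt S) :
    ∃ f : E.FunctionField →ₐ[k] F, pm f (Gp (E := E)) = S := by
  rcases S with _ | ⟨x, y, hxy⟩
  · exact absurd h (lt_irrefl 0)
  · exact emb_aux x y hxy ((fd_pos hF x).1 h)
-- END emb

end gen

end Pool.Agent.CorE
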