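import Pool.Agent.CorD.Fin
import Mathlib.AlgebraicGeometry.EllipticCurve.Affine.AddSubMap

/-!
# Points of a constant elliptic curve over a function field: the height
-/

set_option autoImplicit false

open Module WeierstrassCurve WeierstrassCurve.Affine

open scoped Classical

noncomputable section

namespace Pool.Agent.CorE

open Pool.Agent.EllHiggs Pool.Agent.CorD

/-- The points of `E` over `F`. -/
abbrev Pt {k : Type} [Field k] (E : Affine k) (F : Type) [Field F] [Algebra k F] : Type :=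
  (E⁄F).Point

instance {k : Type} [Field k] (E : Affine k) (F : Type) [Field F] [Algebra k F] [E.IsElliptic] :
    (E⁄F).IsElliptic :=
  inferInstanceAs (WeierstrassCurve.IsElliptic (WeierstrassCurve.map E (algebraMap k F)))

/-- The height of a point: the degree of its `x`-coordinate; `0` for the point at infinity. -/
def hgt {k F : Type} [Field k] [Field F] [Algebra k F] {E : Affine k} : Pt E F → ℕ
  | .zero => 0
  | .some x _ _ => fdeg k x

section loc

variable {k F : Type} [Field k] [Field F] [Algebra k F] {E : Affine k}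

/-- The pole order of the `x`-coordinate at a place. -/
def plo (v : Place k F) : Pt E F → ℤ
  | .zero => 0
  | .some x _ _ => max 0 (-(v.ord x))

/-- `m` is the least order of the nonzero coordinates of `w`. -/
def HasMin (v : Place k F) (w : Fin 3 → F) (m : ℤ) : Prop :=
  (∀ i, v.Ge m (w i)) ∧ ∃ i, w i ≠ 0 ∧ v.ord (w i) = m

/-- `Mathlib`'s `addSubMap` over `F`. -/
def Phi (E : Affine k) (w : Fin 3 → F) : Fin 3 → F :=
  fun i => MvPolynomial.eval w (addSubMap (E⁄F) i)

-- BEGIN hmu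
/-- ROW hmu. `Ge` for all coordinates and equality for one, both ways. -/
theorem HasMin.uniq {v : Place k F} {w : Fin 3 → F} {m m' : ℤ} (h : HasMin v w m)
    (h' : HasMin v w m') : m = m' := by
  obtain ⟨hg, i, hi, hio⟩ := h
  obtain ⟨hg', j, hj, hjo⟩ := h'
  have h1 := (hg' i).resolve_left hi
  have h2 := (hg j).resolve_left hj
  rw [hio] at h1
  rw [hjo] at h2
  exact le_antisymm h2 h1
-- END hmu

-- BEGIN hms
/-- ROW hms. `v.ord_mul`. -/
theorem HasMin.smul {v : Place k F} {w : Fin 3 → F} {m : ℤ} (h : HasMin v w m) {c : F}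
    (hc : c ≠ 0) : HasMin v (fun i => c * w i) (v.ord c + m) := by
  obtain ⟨h1, i, hi, hm⟩ := h
  refine ⟨fun j => (Place.Ge.of_le le_rfl).mul (h1 j), i, mul_ne_zero hc hi, ?_⟩
  rw [v.ord_mul c (w i) hc hi, hm]
-- END hms

-- BEGIN gau
private theorem gau_far {v : Place k F} {x x' : F} (h : v.ord x < 0) (h' : 0 ≤ v.ord x') :
    x + x' ≠ 0 ∧ v.ord (x + x') = v.ord x := by
  have hx : x ≠ 0 := by
    rintro rfl
    rw [v.ord_zero] at h
    exact lt_irrefl _ h
  have h1 : x + x' ≠ 0 := by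
    intro h0
    have h2 : x' = -x := by linear_combination h0
    rw [h2, v.ord_neg] at h'
    omega
  refine ⟨h1, le_antisymm ?_ ?_⟩
  · by_contra hcon
    push Not at hcon
    have h3 : v.Ge (v.ord x + 1) (x + x') := Or.inr (by omega)
    have h4 : v.Ge (v.ord x + 1) x' := Or.inr (by omega)
    have h5 := (h3.sub h4).le_ord (by rw [add_sub_cancel_right]; exact hx)
    rw [add_sub_cancel_right] at h5
    omega
  · have h3 : v.Ge (v.ord x) x := Or.inr le_rfl
    have h4 : v.Ge (v.ord x) x' := Or.inr (by omega)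
    exact (h3.add h4).le_ord h1

private theorem gau_one {v : Place k F} {m : ℤ} (hm : m ≤ 0) : v.Ge m 1 :=
  Or.inr (by rw [v.ord_one]; exact hm)

private theorem gau_two (v : Place k F) (x x' : F) :
    HasMin v ![x * x', x + x', 1] (-(max 0 (-(v.ord x))) - max 0 (-(v.ord x'))) := by
  rcases lt_or_ge (v.ord x) 0 with h | h <;> rcases lt_or_ge (v.ord x') 0 with h' | h'
  · have hx : x ≠ 0 := by
      rintro rfl
      rw [v.ord_zero] at h
      exact lt_irrefl _ h
    have hx' : x' ≠ 0 := by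
      rintro rfl
      rw [v.ord_zero] at h'
      exact lt_irrefl _ h'
    have hm : -(max 0 (-(v.ord x))) - max 0 (-(v.ord x')) = v.ord x + v.ord x' := by omega
    rw [hm]
    refine ⟨fun i => ?_, 0, mul_ne_zero hx hx', v.ord_mul _ _ hx hx'⟩
    fin_cases i
    · exact Or.inr (v.ord_mul _ _ hx hx').ge
    · exact Place.Ge.add (Or.inr (by omega)) (Or.inr (by omega))
    · exact gau_one (by omega)
  · have hm : -(max 0 (-(v.ord x))) - max 0 (-(v.ord x')) = v.ord x := by omega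
    rw [hm]
    refine ⟨fun i => ?_, 1, (gau_far h h').1, (gau_far h h').2⟩
    fin_cases i
    · have h3 : v.Ge (v.ord x + 0) (x * x') := Place.Ge.mul (Or.inr le_rfl) (Or.inr h')
      rw [add_zero] at h3
      exact h3
    · exact Or.inr (gau_far h h').2.ge
    · exact gau_one (by omega)
  · have hm : -(max 0 (-(v.ord x))) - max 0 (-(v.ord x')) = v.ord x' := by omega
    rw [hm, add_comm x x']
    refine ⟨fun i => ?_, 1, (gau_far h' h).1, (gau_far h' h).2⟩
    fin_cases i
    · have h3 : v.Ge (0 + v.ord x') (x * x') := Place.Ge.mul (Or.inr h) (Or.inr le_rfl)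
      rw [zero_add] at h3
      exact h3
    · exact Or.inr (gau_far h' h).2.ge
    · exact gau_one (by omega)
  · have hm : -(max 0 (-(v.ord x))) - max 0 (-(v.ord x')) = 0 := by omega
    rw [hm]
    refine ⟨fun i => ?_, 2, one_ne_zero, v.ord_one⟩
    fin_cases i
    · have h3 : v.Ge (0 + 0) (x * x') := Place.Ge.mul (Or.inr h) (Or.inr h')
      rw [add_zero] at h3
      exact h3
    · exact Place.Ge.add (Or.inr h) (Or.inr h')
    · exact gau_one le_rfl

private theorem gau_inf (v : Place k F) (x : F) :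
    HasMin v ![x, 1, 0] (-(max 0 (-(v.ord x)))) := by
  rcases lt_or_ge (v.ord x) 0 with h | h
  · have hx : x ≠ 0 := by
      rintro rfl
      rw [v.ord_zero] at h
      exact lt_irrefl _ h
    have hm : -(max 0 (-(v.ord x))) = v.ord x := by omega
    rw [hm]
    refine ⟨fun i => ?_, 0, hx, rfl⟩
    fin_cases i
    · exact Or.inr le_rfl
    · exact gau_one (by omega)
    · exact Or.inl rfl
  · have hm : -(max 0 (-(v.ord x))) = 0 := by omega
    rw [hm]
    refine ⟨fun i => ?_, 1, one_ne_zero, v.ord_one⟩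
    fin_cases i
    · exact Or.inr h
    · exact gau_one le_rfl
    · exact Or.inl rfl

/-- ROW gau. Gauss' lemma. Cases of `P`, `Q` (`sym2x` by its simp lemmas or unfolded: `sym2x`, `xRep`):
`![1, 0, 0]`; `![x, 1, 0]`; `![x * x', x + x', 1]`. In the last case: both orders `≥ 0` (or the element `0`; note
`v.ord 0 = 0`): minimum `0` at the last coordinate. One of them of order `< 0`, the other `≥ 0`: minimum at `x + x'`
(`v.ord (x + x') = v.ord x` if `v.ord x < v.ord x'`; library `EllHiggs/Basic.lean` may have it, otherwise from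
`ord_add` twice). Both `< 0`: minimum at `x * x'`. -/
theorem gauss (v : Place k F) (P Q : Pt E F) : HasMin v (P.sym2x Q) (-(plo v P) - plo v Q) := by
  rcases P with _ | ⟨x, y, h⟩ <;> rcases Q with _ | ⟨x', y', h'⟩
  · have h1 : (Point.zero : Pt E F).sym2x Point.zero = ![1, 0, 0] := Point.sym2x_zero_zero
    have h2 : (-(plo v (Point.zero : Pt E F)) - plo v (Point.zero : Pt E F)) = 0 := rfl
    rw [h1, h2]
    refine ⟨fun i => ?_, 0, one_ne_zero, v.ord_one⟩
    fin_cases i
    · exact gau_one le_rfl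
    · exact Or.inl rfl
    · exact Or.inl rfl
  · have h1 : (Point.zero : Pt E F).sym2x (Point.some x' y' h') = ![x', 1, 0] :=
      Point.sym2x_zero_some h'
    have h2 : (-(plo v (Point.zero : Pt E F)) - plo v (Point.some x' y' h' : Pt E F)) =
        -(max 0 (-(v.ord x'))) := by
      have h3 : plo v (Point.zero : Pt E F) = 0 := rfl
      have h4 : plo v (Point.some x' y' h' : Pt E F) = max 0 (-(v.ord x')) := rfl
      rw [h3, h4]; ring
    rw [h1, h2]
    exact gau_inf v x'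
  · have h1 : (Point.some x y h : Pt E F).sym2x Point.zero = ![x, 1, 0] :=
      Point.sym2x_some_zero h
    have h2 : (-(plo v (Point.some x y h : Pt E F)) - plo v (Point.zero : Pt E F)) =
        -(max 0 (-(v.ord x))) := by
      have h3 : plo v (Point.zero : Pt E F) = 0 := rfl
      have h4 : plo v (Point.some x y h : Pt E F) = max 0 (-(v.ord x)) := rfl
      rw [h3, h4]; ring
    rw [h1, h2]
    exact gau_inf v x
  · rw [Point.sym2x_some_some]
    exact gau_two v x x'
-- END gau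

-- BEGIN phi
private theorem phi_pow {v : Place k F} {x : F} {m : ℤ} (h : v.Ge m x) (n : ℕ) :
    v.Ge (n * m) (x ^ n) := by
  induction n with
  | zero =>
    rw [pow_zero]
    refine Place.Ge.of_le ?_
    have h1 := v.ord_const 1
    rw [map_one] at h1
    rw [h1]
    simp
  | succ n ih =>
    have h1 := ih.mul h
    rw [pow_succ]
    have h2 : (n : ℤ) * m + m = ((n + 1 : ℕ) : ℤ) * m := by
      push_cast
      ring
    rw [← h2]
    exact h1

private theorem phi_hom {v : Place k F} {w : Fin 3 → F} {m : ℤ} (h : ∀ i, v.Ge m (w i))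
    {p : MvPolynomial (Fin 3) k} (hp : p.IsHomogeneous 2) :
    v.Ge (2 * m) (MvPolynomial.eval w (MvPolynomial.map (algebraMap k F) p)) := by
  rw [MvPolynomial.eval_map, MvPolynomial.eval₂_eq']
  refine Place.Ge.sum fun d hd => ?_
  have h1 := hp (MvPolynomial.mem_support_iff.1 hd)
  rw [Finsupp.weight_apply, Finsupp.sum_fintype _ _ (fun i => by simp), Fin.sum_univ_three] at h1
  simp only [Pi.one_apply, smul_eq_mul, mul_one] at h1
  rw [Fin.prod_univ_three]
  have h2 : v.Ge 0 (algebraMap k F (MvPolynomial.coeff d p)) :=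
    Place.Ge.of_le (v.ord_const _).ge
  have h3 := h2.mul (((phi_pow (h 0) (d 0)).mul (phi_pow (h 1) (d 1))).mul (phi_pow (h 2) (d 2)))
  refine h3.mono (le_of_eq ?_)
  have h4 : (2 : ℤ) = (d 0 : ℤ) + d 1 + d 2 := by exact_mod_cast h1.symm
  rw [h4]
  ring

private theorem phi_map (i : Fin 3) : addSubMap (E⁄F) i =
    MvPolynomial.map (algebraMap k F) (addSubMap E i) := by
  unfold addSubMap
  fin_cases i <;>
    simp only [Function.uncurry_apply_pair, Matrix.cons_val', Matrix.cons_val_zero,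
      Matrix.cons_val_fin_one, Matrix.cons_val_one, Matrix.cons_val, WeierstrassCurve.baseChange,
      Fin.mk_one, Fin.zero_eta, Fin.isValue, Fin.reduceFinMk,
      map_add, map_sub, map_mul, map_pow, map_neg, MvPolynomial.map_C, MvPolynomial.map_X,
      map_b₂, map_b₄, map_b₆, map_b₈, map_ofNat]

private theorem phi_coeff0 (j : Fin 3) : addSubMapCoeff (E⁄F) (0, j) =
    MvPolynomial.map (algebraMap k F) (addSubMapCoeff E (0, j)) := by
  unfold addSubMapCoeff
  fin_cases j <;>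
    simp only [Function.uncurry_apply_pair, Matrix.cons_val', Matrix.cons_val_zero,
      Matrix.cons_val_fin_one, Matrix.cons_val_one, Matrix.cons_val, WeierstrassCurve.baseChange,
      Fin.mk_one, Fin.zero_eta, Fin.isValue, Fin.reduceFinMk,
      map_add, map_sub, map_mul, map_pow, map_neg, MvPolynomial.map_C, MvPolynomial.map_X,
      map_b₂, map_b₄, map_b₆, map_b₈, map_ofNat]

private theorem phi_coeff1 (j : Fin 3) : addSubMapCoeff (E⁄F) (1, j) =
    MvPolynomial.map (algebraMap k F) (addSubMapCoeff E (1, j)) := by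
  unfold addSubMapCoeff
  fin_cases j <;>
    simp only [Function.uncurry_apply_pair, Matrix.cons_val', Matrix.cons_val_zero,
      Matrix.cons_val_fin_one, Matrix.cons_val_one, Matrix.cons_val, WeierstrassCurve.baseChange,
      Fin.mk_one, Fin.zero_eta, Fin.isValue, Fin.reduceFinMk,
      map_add, map_sub, map_mul, map_pow, map_neg, MvPolynomial.map_C, MvPolynomial.map_X,
      map_b₂, map_b₄, map_b₆, map_b₈, map_ofNat]

private theorem phi_coeff2 (j : Fin 3) : addSubMapCoeff (E⁄F) (2, j) =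
    MvPolynomial.map (algebraMap k F) (addSubMapCoeff E (2, j)) := by
  unfold addSubMapCoeff
  fin_cases j <;>
    simp only [Function.uncurry_apply_pair, Matrix.cons_val', Matrix.cons_val_zero,
      Matrix.cons_val_fin_one, Matrix.cons_val_one, Matrix.cons_val, WeierstrassCurve.baseChange,
      Fin.mk_one, Fin.zero_eta, Fin.isValue, Fin.reduceFinMk,
      map_add, map_sub, map_mul, map_pow, map_neg, MvPolynomial.map_C, MvPolynomial.map_X,
      map_b₂, map_b₄, map_b₆, map_b₈, map_ofNat]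

private theorem phi_coeff (i j : Fin 3) : addSubMapCoeff (E⁄F) (i, j) =
    MvPolynomial.map (algebraMap k F) (addSubMapCoeff E (i, j)) := by
  fin_cases i
  · exact phi_coeff0 j
  · exact phi_coeff1 j
  · exact phi_coeff2 j

/-- ROW phi. `≥`: the three forms are explicit (`addSubMap`, `simp`), quadratic in `w`, with coefficients
`(E⁄F).b₂ = algebraMap k F E.b₂` etc. (`map_b₂` ...), which are constants: `Place.Ge` of sums and products
(`Ge.add`, `Ge.mul`, `Place.mem_O_const`). `≤`: Mathlib's `addSubMapCoeff_condition (E⁄F) w i` for the `i` with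
`w i ≠ 0`, `v.ord (w i) = m`: if all `Phi E w j` were `0` or of order `> 2 m`, then `w i ^ 4` would be `0` or of order
`> 4 m`; the coefficients `C (Δ'⁻¹) * addSubMapCoeff _ (i, j)` are quadratic in `w` with constant coefficients
(`addSubMapCoeff` is explicit; or a private lemma: a homogeneous polynomial of degree 2 whose coefficients are in
`(algebraMap k F).range` has value `Ge (2 m)` at `w`; `isHomogeneous_addSubMap`, `isHomogeneous_addSubMapCoeff`). -/
theorem phi_min [E.IsElliptic] {v : Place k F} {w : Fin 3 → F} {m : ℤ} (h : HasMin v w m) :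
    HasMin v (Phi E w) (2 * m) := by
  obtain ⟨h1, i, hi, hm⟩ := h
  have h2 : ∀ j, v.Ge (2 * m) (Phi E w j) := by
    intro j
    unfold Phi
    rw [phi_map]
    exact phi_hom h1 (isHomogeneous_addSubMap E j)
  refine ⟨h2, ?_⟩
  by_contra hcon
  have h3 : ∀ j, v.Ge (2 * m + 1) (Phi E w j) := by
    intro j
    rcases h2 j with h4 | h4
    · exact Or.inl h4
    · by_cases h5 : Phi E w j = 0
      · exact Or.inl h5
      · refine Or.inr ?_
        have h6 : v.ord (Phi E w j) ≠ 2 * m := fun h7 => hcon ⟨j, h5, h7⟩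
        omega
  have h4 := addSubMapCoeff_condition (E⁄F) w i
  have h5 : v.Ge 0 (((E⁄F).Δ'⁻¹ : Fˣ) : F) := by
    have h6 : ((E⁄F).Δ' : F) = algebraMap k F (E.Δ' : k) := by
      rw [coe_Δ', coe_Δ']
      exact map_Δ E (algebraMap k F)
    have h7 : (((E⁄F).Δ'⁻¹ : Fˣ) : F) = algebraMap k F ((E.Δ' : k)⁻¹) := by
      rw [Units.val_inv_eq_inv_val, h6, map_inv₀]
    rw [h7]
    exact Place.Ge.of_le (v.ord_const _).ge
  have h6 : v.Ge (4 * m + 1) (w i ^ 4) := by
    rw [← h4]
    refine Place.Ge.sum fun j _ => ?_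
    rw [map_mul, MvPolynomial.eval_C, phi_coeff]
    have h7 := (h5.mul (phi_hom h1 (isHomogeneous_addSubMapCoeff E (i, j)))).mul (h3 j)
    refine h7.mono (le_of_eq ?_)
    ring
  have h7 := h6.le_ord (pow_ne_zero 4 hi)
  rw [v.ord_pow, hm] at h7
  push_cast at h7
  omega
-- END phi

-- BEGIN ase
private theorem ase_phi (W : Affine F) (a b : F) :
    (fun i => MvPolynomial.eval ![a, b, 1] (addSubMap W i)) =
      ![a ^ 2 - W.b₄ * a - W.b₆ * b - W.b₈, 2 * b * a + W.b₂ * a + W.b₄ * b + W.b₆,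
        b ^ 2 - 4 * a] := by
  funext i
  fin_cases i <;> simp [addSubMap]

/-- ROW ase. The case of the same `x`-coordinate: `P ≠ 0`. `P + P = 0` iff `2 y + a₁ x + a₃ = 0`, that is
`4 x ^ 3 + b₂ x ^ 2 + 2 b₄ x + b₆ = 0` (the square of `2 y + a₁ x + a₃`, by the equation); then `c` is the first
coordinate, not `0` by Mathlib's `addSubMap_ne_zero`. Otherwise `c = (2 y + a₁ x + a₃) ^ 2` and the duplication formula
(`Point.add_self_of_Y_ne`, `slope_of_Y_ne`, `addX`). Coordinates: `Phi` at `![x * x, x + x, 1]`. -/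
theorem asm_dbl [E.IsElliptic] (P : Pt E F) :
    ∃ c : F, c ≠ 0 ∧ Phi E (P.sym2x P) = fun i => c * ((P + P).sym2x 0) i := by
  rcases P with _ | ⟨x, y, h⟩
  · refine ⟨1, one_ne_zero, ?_⟩
    change Phi E ((0 : Pt E F).sym2x 0) = fun i => 1 * (((0 : Pt E F) + 0).sym2x 0) i
    rw [add_zero, Point.sym2x_zero_zero]
    funext i
    unfold Phi
    fin_cases i <;> simp [addSubMap]
  have e1 := ((E⁄F).equation_iff x y).1 h.1
  have hPhi : Phi E ((Point.some x y h : Pt E F).sym2x (Point.some x y h)) =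
      ![(x * x) ^ 2 - (E⁄F).b₄ * (x * x) - (E⁄F).b₆ * (x + x) - (E⁄F).b₈,
        2 * (x + x) * (x * x) + (E⁄F).b₂ * (x * x) + (E⁄F).b₄ * (x + x) + (E⁄F).b₆,
        (x + x) ^ 2 - 4 * (x * x)] := by
    unfold Phi
    rw [Point.sym2x_some_some]
    exact ase_phi (E⁄F) _ _
  by_cases hy : y = (E⁄F).negY x y
  · have hne : Phi E ((Point.some x y h : Pt E F).sym2x (Point.some x y h)) ≠ 0 :=
      addSubMap_ne_zero (E⁄F) (Point.sym2x_ne_zero _ _)
    have h2 : 2 * y + (E⁄F).a₁ * x + (E⁄F).a₃ = 0 := by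
      unfold negY at hy
      linear_combination hy
    have h3 : 2 * (x + x) * (x * x) + (E⁄F).b₂ * (x * x) + (E⁄F).b₄ * (x + x) + (E⁄F).b₆ = 0 := by
      unfold WeierstrassCurve.b₂ WeierstrassCurve.b₄ WeierstrassCurve.b₆
      linear_combination (2 * y + (E⁄F).a₁ * x + (E⁄F).a₃) * h2 - 4 * e1
    have h4 : (x + x) ^ 2 - 4 * (x * x) = 0 := by ring
    rw [h3, h4] at hPhi
    have h5 : (Point.some x y h : Pt E F) + Point.some x y h = 0 := Point.add_self_of_Y_eq hy
    refine ⟨(x * x) ^ 2 - (E⁄F).b₄ * (x * x) - (E⁄F).b₆ * (x + x) - (E⁄F).b₈, ?_, ?_⟩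
    · intro h0
      apply hne
      rw [hPhi, h0]
      funext i
      fin_cases i <;> rfl
    · rw [hPhi, h5, Point.sym2x_zero_zero]
      funext i
      fin_cases i <;> simp
  · have h2 : 2 * y + (E⁄F).a₁ * x + (E⁄F).a₃ ≠ 0 := by
      intro h0
      apply hy
      unfold negY
      linear_combination h0
    refine ⟨(2 * y + (E⁄F).a₁ * x + (E⁄F).a₃) ^ 2, pow_ne_zero _ h2, ?_⟩
    rw [hPhi, Point.add_self_of_Y_ne hy, Point.sym2x_some_zero]
    have h3 : y - (E⁄F).negY x y = 2 * y + (E⁄F).a₁ * x + (E⁄F).a₃ := by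
      unfold negY
      ring
    have h6 : (E⁄F).slope x x y y = (3 * x ^ 2 + 2 * (E⁄F).a₂ * x + (E⁄F).a₄ - (E⁄F).a₁ * y) /
        (2 * y + (E⁄F).a₁ * x + (E⁄F).a₃) := by
      rw [slope_of_Y_ne rfl hy, h3]
    have h7 : (2 * y + (E⁄F).a₁ * x + (E⁄F).a₃) ^ 2 * (E⁄F).addX x x ((E⁄F).slope x x y y) =
        (x * x) ^ 2 - (E⁄F).b₄ * (x * x) - (E⁄F).b₆ * (x + x) - (E⁄F).b₈ := by
      rw [h6]
      unfold addX WeierstrassCurve.b₈ WeierstrassCurve.b₄ WeierstrassCurve.b₆
      field_simp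
      linear_combination (-(8 * x + (E⁄F).a₁ ^ 2 + 4 * (E⁄F).a₂)) * e1
    have h8 : (2 * y + (E⁄F).a₁ * x + (E⁄F).a₃) ^ 2 =
        2 * (x + x) * (x * x) + (E⁄F).b₂ * (x * x) + (E⁄F).b₄ * (x + x) + (E⁄F).b₆ := by
      unfold WeierstrassCurve.b₂ WeierstrassCurve.b₄ WeierstrassCurve.b₆
      linear_combination 4 * e1
    funext i
    fin_cases i
    · exact h7.symm
    · change _ = (2 * y + (E⁄F).a₁ * x + (E⁄F).a₃) ^ 2 * 1
      rw [mul_one]
      exact h8.symm
    · change (x + x) ^ 2 - 4 * (x * x) = (2 * y + (E⁄F).a₁ * x + (E⁄F).a₃) ^ 2 * 0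
      ring
-- END ase

-- BEGIN asg
private theorem asg_phi (W : Affine F) (a b : F) :
    (fun i => MvPolynomial.eval ![a, b, 1] (addSubMap W i)) =
      ![a ^ 2 - W.b₄ * a - W.b₆ * b - W.b₈, 2 * b * a + W.b₂ * a + W.b₄ * b + W.b₆,
        b ^ 2 - 4 * a] := by
  funext i
  fin_cases i <;> simp [addSubMap]

/-- ROW asg. Different `x`-coordinates: `c = (x₁ - x₂) ^ 2`, `P + Q` and `P - Q` by `Point.add_of_X_ne` (`-Q` by
`neg_some`, `negY`), `addX` with `slope_of_X_ne`; `field_simp` and `linear_combination` with the two equations. -/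
theorem asm_gen {x₁ y₁ x₂ y₂ : F} (h₁ : (E⁄F).Nonsingular x₁ y₁) (h₂ : (E⁄F).Nonsingular x₂ y₂)
    (hx : x₁ ≠ x₂) :
    ∃ c : F, c ≠ 0 ∧ Phi E ((Point.some x₁ y₁ h₁ : Pt E F).sym2x (Point.some x₂ y₂ h₂)) =
      fun i => c * (((Point.some x₁ y₁ h₁ : Pt E F) + Point.some x₂ y₂ h₂).sym2x
        ((Point.some x₁ y₁ h₁ : Pt E F) - Point.some x₂ y₂ h₂)) i := by
  have hd : x₁ - x₂ ≠ 0 := sub_ne_zero.2 hx
  have e1 := ((E⁄F).equation_iff x₁ y₁).1 h₁.1
  have e2 := ((E⁄F).equation_iff x₂ y₂).1 h₂.1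
  refine ⟨(x₁ - x₂) ^ 2, pow_ne_zero _ hd, ?_⟩
  rw [sub_eq_add_neg (Point.some x₁ y₁ h₁ : Pt E F) (Point.some x₂ y₂ h₂), Point.neg_some,
    Point.add_of_X_ne hx, Point.add_of_X_ne hx, Point.sym2x_some_some, Point.sym2x_some_some]
  have s1 : (E⁄F).slope x₁ x₂ y₁ y₂ = (y₁ - y₂) / (x₁ - x₂) := slope_of_X_ne hx
  have s2 : (E⁄F).slope x₁ x₂ y₁ ((E⁄F).negY x₂ y₂) =
      (y₁ + y₂ + (E⁄F).a₁ * x₂ + (E⁄F).a₃) / (x₁ - x₂) := by
    rw [slope_of_X_ne hx]
    unfold negY
    congr 1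
    ring
  rw [s1, s2]
  have h0 : (x₁ * x₂) ^ 2 - (E⁄F).b₄ * (x₁ * x₂) - (E⁄F).b₆ * (x₁ + x₂) - (E⁄F).b₈ =
      (x₁ - x₂) ^ 2 * ((E⁄F).addX x₁ x₂ ((y₁ - y₂) / (x₁ - x₂)) *
        (E⁄F).addX x₁ x₂ ((y₁ + y₂ + (E⁄F).a₁ * x₂ + (E⁄F).a₃) / (x₁ - x₂))) := by
    unfold addX WeierstrassCurve.b₈ WeierstrassCurve.b₄ WeierstrassCurve.b₆
    generalize (E⁄F).a₁ = a₁ at *
    generalize (E⁄F).a₂ = a₂ at *
    generalize (E⁄F).a₃ = a₃ at *
    generalize (E⁄F).a₄ = a₄ at *
    generalize (E⁄F).a₆ = a₆ at *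
    field_simp
    linear_combination
      (-(-x₁ ^ 3 + 2 * x₁ ^ 2 * x₂ - x₁ ^ 2 * a₂ + x₁ * y₁ * a₁ + 2 * x₁ * x₂ ^ 2 + x₁ * x₂ * a₁ ^ 2 +
        4 * x₁ * x₂ * a₂ + x₁ * a₁ * a₃ + x₁ * a₄ + y₁ ^ 2 + y₁ * a₃ - 2 * x₂ ^ 3 - x₂ ^ 2 * a₁ ^ 2 -
        2 * x₂ ^ 2 * a₂ - 2 * x₂ * y₂ * a₁ - x₂ * a₁ * a₃ - 2 * y₂ ^ 2 - 2 * y₂ * a₃ + a₆)) * e1 +
      (-(-4 * x₁ ^ 3 + 2 * x₁ ^ 2 * x₂ - x₁ ^ 2 * a₁ ^ 2 - 4 * x₁ ^ 2 * a₂ + 2 * x₁ * x₂ ^ 2 +
        x₁ * x₂ * a₁ ^ 2 + 4 * x₁ * x₂ * a₂ - x₁ * a₁ * a₃ - 2 * x₁ * a₄ - x₂ ^ 3 - x₂ ^ 2 * a₂ +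
        x₂ * y₂ * a₁ + x₂ * a₁ * a₃ + x₂ * a₄ + y₂ ^ 2 + y₂ * a₃ - a₆)) * e2
  have h1 : 2 * (x₁ + x₂) * (x₁ * x₂) + (E⁄F).b₂ * (x₁ * x₂) + (E⁄F).b₄ * (x₁ + x₂) + (E⁄F).b₆ =
      (x₁ - x₂) ^ 2 * ((E⁄F).addX x₁ x₂ ((y₁ - y₂) / (x₁ - x₂)) +
        (E⁄F).addX x₁ x₂ ((y₁ + y₂ + (E⁄F).a₁ * x₂ + (E⁄F).a₃) / (x₁ - x₂))) := by
    unfold addX WeierstrassCurve.b₂ WeierstrassCurve.b₄ WeierstrassCurve.b₆
    field_simp
    linear_combination (-2) * e1 + (-2) * e2
  unfold Phi
  rw [asg_phi (E⁄F)]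
  funext i
  fin_cases i
  · exact h0
  · exact h1
  · change (x₁ + x₂) ^ 2 - 4 * (x₁ * x₂) = (x₁ - x₂) ^ 2 * 1
    ring
-- END asg

-- BEGIN asm
private theorem asm_zero (Q : Pt E F) :
    Phi E ((0 : Pt E F).sym2x Q) = fun i => (1 : F) * (Q.sym2x Q) i := by
  rcases Q with _ | ⟨x, y, h⟩
  · rw [← Point.zero_def, Point.sym2x_zero_zero]
    funext i
    fin_cases i <;> simp [Phi, addSubMap]
  · rw [Point.sym2x_zero_some, Point.sym2x_some_some]
    funext i
    fin_cases i <;> simp [Phi, addSubMap] <;> ring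

/-- ROW asm. Cases: `P = 0` or `Q = 0` (`c = 1`, `sym2x_neg_right`, `sym2x_comm`); `x₁ ≠ x₂` (`asm_gen`); `x₁ = x₂`:
`Q = P` or `Q = -P` (`Point.X_eq_iff`), `asm_dbl` with `sym2x_neg_right`, `sym2x_comm`. -/
theorem asm [E.IsElliptic] (P Q : Pt E F) :
    ∃ c : F, c ≠ 0 ∧ Phi E (P.sym2x Q) = fun i => c * ((P + Q).sym2x (P - Q)) i := by
  by_cases hP : P = 0
  · subst hP
    refine ⟨1, one_ne_zero, ?_⟩
    rw [asm_zero, zero_add, zero_sub, Point.sym2x_neg_right]
  by_cases hQ : Q = 0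
  · subst hQ
    refine ⟨1, one_ne_zero, ?_⟩
    rw [Point.sym2x_comm, asm_zero, add_zero, sub_zero]
  rcases P with _ | ⟨x₁, y₁, h₁⟩
  · exact absurd rfl hP
  rcases Q with _ | ⟨x₂, y₂, h₂⟩
  · exact absurd rfl hQ
  by_cases hx : x₁ = x₂
  · have h := (Point.X_eq_iff (h₁ := h₁) (h₂ := h₂)).1 hx
    rcases h with h | h
    · rw [h, sub_self]
      exact asm_dbl _
    · rw [h, Point.sym2x_neg_left, neg_add_cancel]
      obtain ⟨c, hc, h3⟩ := asm_dbl (E := E) (Point.some x₂ y₂ h₂ : Pt E F)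
      refine ⟨c, hc, ?_⟩
      rw [h3, ← Point.sym2x_neg_right 0, Point.sym2x_comm 0]
      rw [neg_sub, sub_neg_eq_add]
  · exact asm_gen h₁ h₂ hx
-- END asm

end loc

section glob

variable {k F : Type} [Field k] [Field F] [Algebra k F] [IsAlgClosed k] [CharZero k] {E : Affine k}

-- BEGIN hsu
/-- ROW hsu. `pol_form` (`CorD/Deg.lean`), finiteness by `finite_ord`. -/
theorem hgt_sum (hF : IsFunField k F) (P : Pt E F) :
    (Function.support fun v : Place k F => plo v P).Finite ∧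
      ∑ᶠ v : Place k F, plo v P = (hgt P : ℤ) := by
  rcases P with _ | ⟨x, y, h⟩
  · constructor
    · refine Set.finite_empty.subset fun v hv => hv ?_
      rfl
    · change ∑ᶠ _ : Place k F, (0 : ℤ) = ((0 : ℕ) : ℤ)
      rw [finsum_zero, Nat.cast_zero]
  · constructor
    · refine (finite_ord hF x).subset fun v hv hc => hv ?_
      change max 0 (-(v.ord x)) = 0
      rw [hc]
      rfl
    · exact pol_form hF x
-- END hsu

/-- The parallelogram law, exactly. -/
theorem par (hF : IsFunField k F) [E.IsElliptic] (P Q : Pt E F) :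
    hgt (P + Q) + hgt (P - Q) = 2 * hgt P + 2 * hgt Q := by
  obtain ⟨c, hc, h1⟩ := asm P Q
  have h2 : ∀ v : Place k F, plo v (P + Q) + plo v (P - Q) =
      2 * plo v P + 2 * plo v Q + v.ord c := by
    intro v
    have h3 := phi_min (E := E) (gauss v P Q)
    have h4 := (gauss v (P + Q) (P - Q)).smul hc
    rw [h1] at h3
    have h5 := h3.uniq h4
    omega
  obtain ⟨f1, s1⟩ := hgt_sum hF (P + Q)
  obtain ⟨f2, s2⟩ := hgt_sum hF (P - Q)
  obtain ⟨f3, s3⟩ := hgt_sum hF P
  obtain ⟨f4, s4⟩ := hgt_sum hF Q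
  have h5 := finsum_congr h2
  have f5 : (Function.support fun v : Place k F => v.ord c).Finite := finite_ord hF c
  have f6 : (Function.support fun v : Place k F => 2 * plo v P).Finite :=
    f3.subset fun v hv hc => hv (by change 2 * plo v P = 0; change plo v P = 0 at hc; rw [hc, mul_zero])
  have f7 : (Function.support fun v : Place k F => 2 * plo v Q).Finite :=
    f4.subset fun v hv hc => hv (by change 2 * plo v Q = 0; change plo v Q = 0 at hc; rw [hc, mul_zero])
  have f8 : (Function.support fun v : Place k F => 2 * plo v P + 2 * plo v Q).Finite :=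
    (f6.union f7).subset (Function.support_add _ _)
  rw [finsum_add_distrib f1 f2, finsum_add_distrib f8 f5, finsum_add_distrib f6 f7,
    ← mul_finsum' _ _ f3, ← mul_finsum' _ _ f4, s1, s2, s3, s4, sum_ord hF c] at h5
  omega

end glob

/-! ### Functions with the parallelogram law -/

-- BEGIN qsu
private theorem qsu_three {G : Type} [AddCommGroup G] (q : G → ℕ)
    (hq : ∀ x y, q (x + y) + q (x - y) = 2 * q x + 2 * q y) (x y z : G) :
    q (x + y + z) + q x + q y + q z = q (x + y) + q (x + z) + q (y + z) := by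
  have h1 := hq (x + z) y
  have h2 := hq (y + z) x
  have h3 := hq z (x - y)
  have h4 := hq x y
  have e1 : x + z + y = x + y + z := by abel
  have e2 : y + z + x = x + y + z := by abel
  have e3 : x + z - y = z + (x - y) := by abel
  have e4 : y + z - x = z - (x - y) := by abel
  rw [e1, e3] at h1
  rw [e2, e4] at h2
  omega

/-- ROW qsu. Formal: from the parallelogram law `q 0 = 0`, `q (-x) = q x`, the three variable identity
`q (x + y + z) + q x + q y + q z = q (x + y) + q (y + z) + q (x + z)`, so `B x y = q (x + y) - q x - q y` is additive in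
each variable; `n * ∑ q (f i) - q (∑ f i) = ∑_(i<j) q (f i - f j) ≥ 0`. For example by induction on `s`:
`(n + 1) (∑ q (f i) + q z) - q (∑ f i + z) = [n ∑ q (f i) - q (∑ f i)] + ∑ q (f i - z)`. -/
theorem q_sum {G ι : Type} [AddCommGroup G] (q : G → ℕ)
    (hq : ∀ x y, q (x + y) + q (x - y) = 2 * q x + 2 * q y) (s : Finset ι) (f : ι → G) :
    q (∑ i ∈ s, f i) ≤ s.card * ∑ i ∈ s, q (f i) := by
  have h0 : q 0 = 0 := by
    have h := hq 0 0
    simp only [add_zero, sub_zero] at h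
    omega
  have hB : ∀ (s : Finset ι) (z : G), (q (∑ i ∈ s, f i + z) : ℤ) - q (∑ i ∈ s, f i) - q z =
      ∑ i ∈ s, ((q (f i + z) : ℤ) - q (f i) - q z) := by
    intro s z
    induction s using Finset.induction_on with
    | empty => simp [h0]
    | insert a s ha ih =>
      rw [Finset.sum_insert ha, Finset.sum_insert ha, ← ih]
      have h1 := qsu_three q hq (f a) (∑ i ∈ s, f i) z
      omega
  induction s using Finset.induction_on with
  | empty => simp [h0]
  | insert a s ha ih =>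
    rw [Finset.sum_insert ha, Finset.sum_insert ha, Finset.card_insert_of_notMem ha,
      add_comm (f a)]
    have h1 := hB s (f a)
    have h2 : ∑ i ∈ s, ((q (f i + f a) : ℤ) - q (f i) - q (f a)) ≤
        ∑ i ∈ s, ((q (f i) : ℤ) + q (f a)) := by
      refine Finset.sum_le_sum fun i _ => ?_
      have h3 := hq (f i) (f a)
      omega
    rw [Finset.sum_add_distrib, Finset.sum_const, nsmul_eq_mul] at h2
    have h3 : (q (∑ i ∈ s, f i) : ℤ) ≤ s.card * ∑ i ∈ s, (q (f i) : ℤ) := by exact_mod_cast ih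
    zify
    nlinarith [h1, h2, h3]
-- END qsu

-- BEGIN qct
private theorem qct_ge {G : Type} [AddCommGroup G] (q : G → ℕ)
    (hq : ∀ x y, q (x + y) + q (x - y) = 2 * q x + 2 * q y) (x t : G) (ht : q t = 0) :
    q x ≤ q (x + t) := by
  by_contra hlt
  push Not at hlt
  have key : ∀ n : ℕ, (q (x + n • t) : ℤ) = q x + n * ((q (x + t) : ℤ) - q x) ∧
      (q (x + (n + 1) • t) : ℤ) = q x + (n + 1) * ((q (x + t) : ℤ) - q x) := by
    intro n
    induction n with
    | zero => simp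
    | succ n ih =>
      refine ⟨by rw [ih.2]; push_cast; ring, ?_⟩
      have h1 := hq (x + (n + 1) • t) t
      have h2 : x + (n + 1) • t + t = x + (n + 1 + 1) • t := by
        rw [add_assoc, ← succ_nsmul]
      have h3 : x + (n + 1) • t - t = x + n • t := by
        rw [succ_nsmul]
        abel
      rw [h2, h3, ht] at h1
      have h4 : (q (x + (n + 1 + 1) • t) : ℤ) + q (x + n • t) = 2 * q (x + (n + 1) • t) := by
        exact_mod_cast h1
      rw [ih.1, ih.2] at h4
      push_cast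
      linarith
  have h1 := (key (q x + 1)).1
  have h2 : (0 : ℤ) ≤ q (x + (q x + 1) • t) := Int.natCast_nonneg _
  rw [h1] at h2
  have h3 : (q (x + t) : ℤ) - q x ≤ -1 := by
    have : (q (x + t) : ℤ) < q x := by exact_mod_cast hlt
    linarith
  have h4 : ((q x : ℤ) + 1) * ((q (x + t) : ℤ) - q x) ≤ ((q x : ℤ) + 1) * (-1) :=
    mul_le_mul_of_nonneg_left h3 (by positivity)
  push_cast at h2
  linarith

/-- ROW qct. `g n = q (x + n • t)` (`n : ℤ` or `ℕ`, both directions): `g (n + 1) + g (n - 1) = 2 g n` as `q t = 0`, so `g` is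
`g 0 + n d`; `g ≥ 0` for all integers forces `d = 0`. -/
theorem q_const {G : Type} [AddCommGroup G] (q : G → ℕ)
    (hq : ∀ x y, q (x + y) + q (x - y) = 2 * q x + 2 * q y) (x t : G) (ht : q t = 0) :
    q (x + t) = q x := by
  have h0 := hq 0 0
  rw [add_zero, sub_zero] at h0
  have h1 := hq 0 t
  rw [zero_add, zero_sub, ht] at h1
  have ht' : q (-t) = 0 := by omega
  have h2 := qct_ge q hq x t ht
  have h3 := qct_ge q hq (x + t) (-t) ht'
  rw [add_neg_cancel_right] at h3
  exact le_antisymm h3 h2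
-- END qct

end Pool.Agent.CorE
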