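import Pool.Agent.CorE.Sml
import Pool.Agent.CorE.Gpt
import Pool.Agent.CorE.Cmp

/-!
# The correspondence degree with an elliptic curve
-/

set_option autoImplicit false

open Module WeierstrassCurve WeierstrassCurve.Affine Polynomial

open scoped Classical

noncomputable section

namespace Pool.Agent.CorE

open Pool.Agent.EllHiggs Pool.Agent.CorD Pool.Agent.MP_b814b1_ag

section small

variable {k L M N : Type} [Field k] [Field L] [Field M] [Field N] [Algebra k L] [Algebra k M]
  [Algebra k N] [Algebra L M] [Algebra L N] [Algebra M N] [IsScalarTower k L M]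
  [IsScalarTower k L N] [IsScalarTower k M N] [IsScalarTower L M N] [FiniteDimensional L M]
  [FiniteDimensional M N] [Normal L N] [IsAlgClosed k] [CharZero k] [CharZero L] {E : Affine k}
  [E.IsElliptic]

omit [FiniteDimensional L M] [FiniteDimensional M N] [Normal L N] [IsAlgClosed k] [CharZero k] [CharZero L]
  [E.IsElliptic] [Algebra L M] [Algebra L N] [Algebra M N] [IsScalarTower k L M]
  [IsScalarTower k L N] [IsScalarTower k M N] [IsScalarTower L M N] in
theorem pm_ofId (f : M →ₐ[k] N) (c : Pt E k) :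
    pm f (pm (Algebra.ofId k M) c) = pm (Algebra.ofId k N) c := by
  rw [Point.map_map]
  have h : f.comp (Algebra.ofId k M) = Algebra.ofId k N := Subsingleton.elim _ _
  rw [h]

theorem hgt_some {F : Type} [Field F] [Algebra k F] {x y : F} (h : (E⁄F).Nonsingular x y) :
    hgt (Point.some x y h : Pt E F) = fdeg k x := rfl

omit [E.IsElliptic] in
theorem low_x (hL : IsFunField k L) {x y : M} (h : (E⁄M).Nonsingular x y)
    (hP : 0 < hgt (Point.some x y h : Pt E M)) (h2 : 2 ≤ finrank L M) {w : L}
    (hw : algebraMap L M w = x) : 2 * gon k L ≤ hgt (Point.some x y h : Pt E M) := by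
  have hM : IsFunField k M := hL.of_finite
  subst hw
  change 0 < fdeg k (algebraMap L M w) at hP
  change 2 * gon k L ≤ fdeg k (algebraMap L M w)
  rw [fd_tower] at hP ⊢
  have h3 : 0 < fdeg k w := Nat.pos_of_mul_pos_right hP
  have h4 := (gonx hL).2.1 w ((fd_pos hL w).1 h3)
  calc 2 * gon k L ≤ finrank L M * fdeg k w := Nat.mul_le_mul h2 h4
    _ = fdeg k w * finrank L M := mul_comm _ _

theorem small_two (hL : IsFunField k L) (P : Pt E M) (hP : 0 < hgt P) (h2 : finrank L M = 2)
    (c : Pt E k) (hS : TrS (N := N) L P = pm (Algebra.ofId k N) c) : 2 * gon k L ≤ hgt P := by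
  have hM : IsFunField k M := hL.of_finite
  rcases P with _ | ⟨x, y, h⟩
  · exact absurd hP (lt_irrefl 0)
  have hx : Transcendental k x := (fd_pos hM x).1 hP
  rcases deg_prime (L := L) (M := M) (by rw [h2]; exact Nat.prime_two) x with hd | ⟨w, hw⟩
  · obtain ⟨s, hs, hr⟩ := roots_three (E := E)
    rcases c with _ | ⟨xc, yc, hc⟩
    · exact (two_zero (N := N) h h2 hd (by rw [hS]; rfl)).elim
    · refine gon_sq hL hx (s.erase xc) ?_ ?_
      · rw [hd, h2]
        have := Finset.pred_card_le_card_erase (s := s) (a := xc)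
        omega
      · intro e he
        rw [Finset.mem_erase] at he
        exact two_ne (N := N) h h2 hd hc hS (hr e he.2) he.1
  · exact low_x hL h hP (by omega) hw

theorem small_three0 (hL : IsFunField k L) (P : Pt E M) (hP : 0 < hgt P) (h3 : finrank L M = 3)
    (hS : TrS (N := N) L P = 0) : 2 * gon k L ≤ hgt P := by
  have hM : IsFunField k M := hL.of_finite
  rcases P with _ | ⟨x, y, h⟩
  · exact absurd hP (lt_irrefl 0)
  have hx : Transcendental k x := (fd_pos hM x).1 hP
  rcases deg_prime (L := L) (M := M) (by rw [h3]; exact Nat.prime_three) x with hd | ⟨w, hw⟩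
  · obtain ⟨s, hs, hr⟩ := roots_three (E := E)
    refine gon_sq hL hx s (by rw [hd, h3, hs]) ?_
    intro e he
    exact three_zero (N := N) h h3 hd hS (hr e he)
  · exact low_x hL h hP (by omega) hw

theorem small_three (hL : IsFunField k L) (P : Pt E M) (hP : 0 < hgt P) (h3 : finrank L M = 3)
    (c : Pt E k) (hS : TrS (N := N) L P = pm (Algebra.ofId k N) c) : 2 * gon k L ≤ hgt P := by
  have hM : IsFunField k M := hL.of_finite
  by_cases hc0 : c + c = 0
  · -- translate by `c`
    have h1 : hgt (P + pm (Algebra.ofId k M) c) = hgt P :=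
      q_const (hgt (k := k) (F := M) (E := E)) (par hM) P _ (hgt_const hM c)
    rw [← h1] at hP ⊢
    refine small_three0 (N := N) hL _ hP h3 ?_
    have h2 : TrS (N := N) L (P + pm (Algebra.ofId k M) c) =
        TrS (N := N) L P + TrS (N := N) L (pm (Algebra.ofId k M) c) := by
      unfold TrS
      rw [← Finset.sum_add_distrib]
      exact Finset.sum_congr rfl fun τ _ => map_add _ _ _
    have h4 : TrS (N := N) L (pm (Algebra.ofId k M) c) = 3 • pm (Algebra.ofId k N) c := by
      unfold TrS
      have h5 : ∀ τ : (M →ₐ[L] N), pm (τ.restrictScalars k) (pm (Algebra.ofId k M) c) =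
          pm (Algebra.ofId k N) c := by
        intro τ
        exact pm_ofId _ c
      rw [Finset.sum_congr rfl (fun τ _ => h5 τ), Finset.sum_const, Finset.card_univ,
        card_hom (L := L) (M := M) (N := N), h3]
    have h6 : pm (Algebra.ofId k N) c + pm (Algebra.ofId k N) c = 0 := by
      rw [← map_add, hc0, map_zero]
    rw [h2, h4, hS, show (3 : ℕ) • pm (Algebra.ofId k N) c = pm (Algebra.ofId k N) c +
      (pm (Algebra.ofId k N) c + pm (Algebra.ofId k N) c) by
        rw [succ_nsmul, two_nsmul]; abel, h6, add_zero, h6]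
  · rcases P with _ | ⟨x, y, h⟩
    · exact absurd hP (lt_irrefl 0)
    have hx : Transcendental k x := (fd_pos hM x).1 hP
    rcases deg_prime (L := L) (M := M) (by rw [h3]; exact Nat.prime_three) x with hd | ⟨w, hw⟩
    · obtain ⟨s, hs, hr⟩ := roots_three (E := E)
      rcases c with _ | ⟨xc, yc, hc⟩
      · exact (hc0 (add_zero _)).elim
      refine gon_sq hL hx s (by rw [hd, h3, hs]) ?_
      intro e he
      refine three_ne (N := N) h h3 hd hc hS (hr e he) ?_
      rintro rfl
      exact hc0 (root_two hc (hr _ he))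
    · exact low_x hL h hP (by omega) hw

end small

section main

variable {k L : Type} [Field k] [Field L] [Algebra k L] [IsAlgClosed k] [CharZero k]
  {E : Affine k} [E.IsElliptic]

theorem lower (hL : IsFunField k L) (Z : Corr k L E.FunctionField) :
    (∃ f : E.FunctionField →ₐ[k] L, finrank f.fieldRange L ≤ Z.a * Z.b) ∨
      2 * gon k L ≤ Z.a * Z.b := by
  have hc0 : CharZero L := charZero_of_injective_algebraMap (algebraMap k L).injective
  let _ : Algebra L Z.M := Z.s.toRingHom.toAlgebra
  obtain ⟨hfd, hfr, hst⟩ := rng Z.s (fun _ => rfl)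
  have := hfd
  have := hst
  have hM : IsFunField k Z.M := hL.of_finite
  obtain ⟨N, fN, aK, aL, aM, t1, t2, t3, hN, hfN⟩ := ncl k L Z.M
  have f1 : FiniteDimensional L N := Module.Finite.trans Z.M N
  have hFN : IsFunField k N := hL.of_finite
  obtain ⟨-, hP⟩ := hgt_pm hM Z.t
  obtain ⟨hK, he2⟩ := gen_deg (k := k) (E := E)
  have he0 : 0 < fdeg k (xg E) := (fd_pos hK _).2 (gen_tr E)
  have hb : 0 < Z.b := finrank_pos
  have ha : finrank L Z.M = Z.a := hfr
  have hP' : hgt (pm Z.t (Gp (E := E))) = fdeg k (xg E) * Z.b := hP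
  have hP0 : 0 < hgt (pm Z.t (Gp (E := E))) := by rw [hP']; exact Nat.mul_pos he0 hb
  obtain ⟨S, hS, hS2⟩ := trace_pt (N := N) hL (pm Z.t (Gp (E := E)))
  rw [ha, hP'] at hS2
  rcases Nat.eq_zero_or_pos (hgt S) with h0 | h0
  · right
    obtain ⟨c, hc⟩ := const_pt hL S h0
    have hT : TrS (N := N) L (pm Z.t (Gp (E := E))) = pm (Algebra.ofId k N) c := by
      rw [← hS, ← hc]
      exact pm_ofId _ c
    have hle : hgt (pm Z.t (Gp (E := E))) ≤ 2 * Z.b := by
      rw [hP']; exact Nat.mul_le_mul_right _ he2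
    have ha0 : 0 < Z.a := finrank_pos
    rcases Nat.lt_or_ge Z.a 4 with h4 | h4
    · have h123 : Z.a = 1 ∨ Z.a = 2 ∨ Z.a = 3 := by omega
      rcases h123 with h1 | h2 | h3
      · exfalso
        have hcard : Fintype.card (Z.M →ₐ[L] N) = 1 := by rw [card_hom, ha, h1]
        obtain ⟨τ, hτ⟩ := Fintype.card_eq_one_iff.1 hcard
        have hu : (Finset.univ : Finset (Z.M →ₐ[L] N)) = {τ} := by
          ext σ
          simp [hτ σ]
        have h5 : TrS (N := N) L (pm Z.t (Gp (E := E))) =
            pm (τ.restrictScalars k) (pm Z.t (Gp (E := E))) := by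
          unfold TrS
          rw [hu, Finset.sum_singleton]
        have h6 := hgt_conj (k := k) (L := L) (M := Z.M) (N := N) τ (pm Z.t (Gp (E := E)))
        rw [← h5, hT, hgt_const hFN] at h6
        have h7 : 0 < finrank Z.M N := finrank_pos
        have := Nat.mul_pos hP0 h7
        omega
      · have h5 := small_two (N := N) hL _ hP0 (by rw [ha, h2]) c hT
        rw [h2]
        omega
      · have h5 := small_three (N := N) hL _ hP0 (by rw [ha, h3]) c hT
        rw [h3]
        omega
    · have h5 : Transcendental k (Z.t (xg E)) := by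
        refine (fd_pos hM _).1 ?_
        exact hP0
      obtain ⟨i, hi⟩ := push_ex (k := k) (L := L) (M := Z.M) h5
      have h6 := push (k := k) (L := L) (M := Z.M) hL (Z.t (xg E)) i hi
      have h7 := (gonx hL).2.1 _ hi
      have h8 : fdeg k (Z.t (xg E)) ≤ 2 * Z.b := hle
      have h9 := Nat.mul_le_mul_right Z.b h4
      omega
  · left
    obtain ⟨f, hf⟩ := emb hL S h0
    obtain ⟨-, hf2⟩ := hgt_pm hL f
    rw [hf] at hf2
    refine ⟨f, ?_⟩
    rw [hf2] at hS2
    refine Nat.le_of_mul_le_mul_left ?_ he0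
    calc fdeg k (xg E) * finrank f.fieldRange L ≤ Z.a * (fdeg k (xg E) * Z.b) := hS2
      _ = fdeg k (xg E) * (Z.a * Z.b) := by ring

theorem exists_corr {k W K : Type} [Field k] [IsAlgClosed k] [CharZero k] [Field W] [Field K]
    [Algebra k W] [Algebra k K] (hW : IsFunField k W) (hK : IsFunField k K) :
    {n | ∃ Z : Corr k W K, Z.a * Z.b = n}.Nonempty := by
  obtain ⟨⟨w, hw, hwg⟩, -, -⟩ := gonx hW
  obtain ⟨⟨x, hx, hxg⟩, -, -⟩ := gonx hK
  have c1 : IsCurve k w := ⟨hw, fin_adj hW hw⟩
  have c2 : IsCurve k x := ⟨hx, fin_adj hK hx⟩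
  let _ := RatBase.alg k w
  let _ := RatBase.alg k x
  have t1 : IsScalarTower k (RatFunc k) W :=
    IsScalarTower.of_algebraMap_eq fun c => ((ratHom k w).commutes c).symm
  have t2 : IsScalarTower k (RatFunc k) K :=
    IsScalarTower.of_algebraMap_eq fun c => ((ratHom k x).commutes c).symm
  have f1 : FiniteDimensional (RatFunc k) W := RatBase.finiteDimensional k w
  have f2 : FiniteDimensional (RatFunc k) K := RatBase.finiteDimensional k x
  obtain ⟨M, iM, aM, p, q, hpq, hgen, fp, fq, dp, dq⟩ :=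
    compos (k := k) (W := RatFunc k) (L := W) (N := K)
  exact ⟨_, ⟨M, p, q, hgen, fp, fq⟩, rfl⟩

-- BEGIN upp
/-- ROW upp. `corrDeg_le` (`CorD/Fin.lean`) for `Algebra E.FunctionField L` by `f` (`rng`; finite by `hgt_pm`), and
`corrDeg_le_gon` with `gon k E.FunctionField ≤ fdeg k (xg E) ≤ 2` (`gonx`, `gen_tr`, `gen_deg`). -/
theorem upper (hL : IsFunField k L) :
    (∀ f : E.FunctionField →ₐ[k] L, corrDeg k L E.FunctionField ≤ finrank f.fieldRange L) ∧
      corrDeg k L E.FunctionField ≤ 2 * gon k L := by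
  obtain ⟨hK, he2⟩ := gen_deg (k := k) (E := E)
  refine ⟨fun f => ?_, ?_⟩
  · obtain ⟨hfd, -⟩ := hgt_pm hL f
    let _ : Algebra E.FunctionField L := f.toRingHom.toAlgebra
    obtain ⟨h1, h2, h3⟩ := rng f (fun _ => rfl)
    have := h1
    have := h3
    rw [← h2]
    exact corrDeg_le
  · refine (corrDeg_le_gon hL hK).trans ?_
    rw [mul_comm]
    exact Nat.mul_le_mul_right _ (((gonx hK).2.1 _ (gen_tr E)).trans he2)
-- END upp

theorem formula (hL : IsFunField k L) :
    corrDeg k L E.FunctionField =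
      sInf ({n | ∃ f : E.FunctionField →ₐ[k] L, finrank f.fieldRange L = n} ∪ {2 * gon k L}) := by
  obtain ⟨u1, u2⟩ := upper (E := E) hL
  refine le_antisymm ?_ ?_
  · refine le_csInf ⟨2 * gon k L, Or.inr rfl⟩ ?_
    rintro n (⟨f, rfl⟩ | rfl)
    · exact u1 f
    · exact u2
  · have hne : {n | ∃ Z : Corr k L E.FunctionField, Z.a * Z.b = n}.Nonempty :=
      exists_corr hL (gen_deg E).1
    obtain ⟨Z, hZ⟩ := Nat.sInf_mem hne
    have hZ' : corrDeg k L E.FunctionField = Z.a * Z.b := hZ.symm
    rw [hZ']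
    rcases lower hL Z with ⟨f, hf⟩ | h
    · exact (Nat.sInf_le (Or.inl ⟨f, rfl⟩)).trans hf
    · exact (Nat.sInf_le (Or.inr rfl)).trans h

theorem graph_iff (hL : IsFunField k L) (f : E.FunctionField →ₐ[k] L) :
    corrDeg k L E.FunctionField = finrank f.fieldRange L ↔
      (∀ f' : E.FunctionField →ₐ[k] L, finrank f.fieldRange L ≤ finrank f'.fieldRange L) ∧
        finrank f.fieldRange L ≤ 2 * gon k L := by
  obtain ⟨u1, u2⟩ := upper (E := E) hL
  constructor
  · intro h
    rw [← h]
    exact ⟨u1, u2⟩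
  · rintro ⟨h1, h2⟩
    rw [formula hL]
    refine le_antisymm (Nat.sInf_le (Or.inl ⟨f, rfl⟩)) (le_csInf ⟨2 * gon k L, Or.inr rfl⟩ ?_)
    rintro n (⟨f', rfl⟩ | rfl)
    · exact h1 f'
    · exact h2

/-- Curves over the elliptic curve. -/
theorem cover {B : Type} [Field B] [Algebra k B] (hL : IsFunField k L) (hB : IsFunField k B)
    (p : E.FunctionField →ₐ[k] B) (f : B →ₐ[k] L)
    (hmin : ∀ f' : E.FunctionField →ₐ[k] L,
      finrank (f.comp p).fieldRange L ≤ finrank f'.fieldRange L)
    (hgon : finrank (f.comp p).fieldRange L ≤ 2 * gon k L) :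
    corrDeg k L B = finrank f.fieldRange L := by
  obtain ⟨fp, -⟩ := hgt_pm hB p
  obtain ⟨fq, -⟩ := hgt_pm hL (f.comp p)
  have := fp
  have := fq
  -- the tower
  letI a0 : Algebra E.FunctionField B := p.toRingHom.toAlgebra
  letI a1 : Algebra B L := f.toRingHom.toAlgebra
  letI a2 : Algebra E.FunctionField L := (f.comp p).toRingHom.toAlgebra
  haveI : IsScalarTower E.FunctionField B L := IsScalarTower.of_algebraMap_eq fun x => rfl
  obtain ⟨d0, r0, -⟩ := rng p (fun _ => rfl)
  obtain ⟨d2, r2, -⟩ := rng (f.comp p) (fun _ => rfl)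
  have := d0
  have := d2
  have d1 : FiniteDimensional B L := FiniteDimensional.right E.FunctionField B L
  have t1 : IsScalarTower k B L := IsScalarTower.of_algebraMap_eq fun c => (f.commutes c).symm
  have g1 := corrDeg_le (k := k) (K := B) (L := L)
  have r1 : finrank B L = finrank f.fieldRange L := by
    let e : B ≃+* f.fieldRange := (AlgEquiv.ofInjectiveField f).toRingEquiv
    exact Algebra.finrank_eq_of_equiv_equiv e (RingEquiv.refl L) (RingHom.ext fun x => rfl)
  have hm : finrank (f.comp p).fieldRange L = finrank p.fieldRange B * finrank f.fieldRange L := by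
    rw [← r2, ← r0, ← r1, Module.finrank_mul_finrank]
  rw [← r1]
  refine le_antisymm g1 ?_
  obtain ⟨Z, hZ⟩ := Nat.sInf_mem (exists_corr (k := k) (W := L) (K := B) hL hB)
  have hZ' : corrDeg k L B = Z.a * Z.b := hZ.symm
  obtain ⟨Z', h1⟩ := cmp p Z
  have h2 : corrDeg k L E.FunctionField ≤ Z'.a * Z'.b := Nat.sInf_le ⟨Z', rfl⟩
  rw [(graph_iff hL (f.comp p)).2 ⟨hmin, hgon⟩, hm] at h2
  have h3 : 0 < finrank p.fieldRange B := finrank_pos
  rw [hZ', r1]
  exact Nat.le_of_mul_le_mul_left (h2.trans h1) h3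

end main

end Pool.Agent.CorE
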