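import Pool.Agent.CorE.Trc

/-!
# Constant trace, degrees two and three
-/

set_option autoImplicit false

open Module WeierstrassCurve WeierstrassCurve.Affine Polynomial

open scoped Classical

noncomputable section

namespace Pool.Agent.CorE

open Pool.Agent.EllHiggs Pool.Agent.CorD

section alg

variable {k F : Type} [Field k] [Field F] [Algebra k F] {E : Affine k}

/-- `e` is the `x`-coordinate of a point of order two. -/
def Root (E : Affine k) (e : k) : Prop := 4 * e ^ 3 + E.b₂ * e ^ 2 + 2 * E.b₄ * e + E.b₆ = 0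

/-- The value at the point of order two of the line through two points. -/
def rho (E : Affine k) (e : k) (x₁ y₁ x₂ y₂ : F) : F :=
  (y₁ - y₂) / (x₁ - x₂) * (algebraMap k F e - x₁) + y₁ +
    (algebraMap k F E.a₁ * algebraMap k F e + algebraMap k F E.a₃) / 2

-- BEGIN rsy
/-- ROW rsy. `field_simp`, `ring`. -/
theorem rho_symm (e : k) {x₁ y₁ x₂ y₂ : F} (h : x₁ ≠ x₂) :
    rho E e x₁ y₁ x₂ y₂ = rho E e x₂ y₂ x₁ y₁ := by
  have h1 : x₁ - x₂ ≠ 0 := sub_ne_zero.2 h
  have h2 : (y₂ - y₁) / (x₂ - x₁) = (y₁ - y₂) / (x₁ - x₂) := by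
    rw [← neg_sub y₁ y₂, ← neg_sub x₁ x₂, neg_div_neg_eq]
  have h3 : (y₁ - y₂) / (x₁ - x₂) * (x₁ - x₂) = y₁ - y₂ := div_mul_cancel₀ _ h1
  unfold rho
  rw [h2]
  linear_combination (-1 : F) * h3
-- END rsy

-- BEGIN rmp
/-- ROW rmp. `map_div₀` etc., `f.commutes`. -/
theorem rho_map {F' : Type} [Field F'] [Algebra k F'] (f : F →ₐ[k] F') (e : k) (x₁ y₁ x₂ y₂ : F) :
    f (rho E e x₁ y₁ x₂ y₂) = rho E e (f x₁) (f y₁) (f x₂) (f y₂) := by
  simp only [rho, map_add, map_mul, map_sub, map_div₀, AlgHom.commutes, map_ofNat]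
-- END rmp

-- BEGIN sqr
private theorem sqr_id {F : Type} [Field F] [CharZero F] (a₁ a₂ a₃ a₄ a₆ e x₁ y₁ x₂ y₂ : F)
    (hx : x₁ ≠ x₂)
    (H1 : y₁ ^ 2 + a₁ * x₁ * y₁ + a₃ * y₁ = x₁ ^ 3 + a₂ * x₁ ^ 2 + a₄ * x₁ + a₆)
    (H2 : y₂ ^ 2 + a₁ * x₂ * y₂ + a₃ * y₂ = x₂ ^ 3 + a₂ * x₂ ^ 2 + a₄ * x₂ + a₆)
    (R : 4 * e ^ 3 + (a₁ ^ 2 + 4 * a₂) * e ^ 2 + 2 * (2 * a₄ + a₁ * a₃) * e + (a₃ ^ 2 + 4 * a₆) = 0)
    (l : F) (hl : l * (x₁ - x₂) = y₁ - y₂) :
    (x₁ - e) * (x₂ - e) * ((l ^ 2 + a₁ * l - a₂ - x₁ - x₂) - e) =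
      (l * (e - x₁) + y₁ + (a₁ * e + a₃) / 2) ^ 2 := by
  have hy : y₂ = y₁ - l * (x₁ - x₂) := by rw [hl]; ring
  subst hy
  have key : (x₁ - x₂) * ((x₁ - e) * (x₂ - e) * ((l ^ 2 + a₁ * l - a₂ - x₁ - x₂) - e) -
      (l * (e - x₁) + y₁ + (a₁ * e + a₃) / 2) ^ 2) = 0 := by
    linear_combination (-(e - x₂)) * H1 + (e - x₁) * H2 - (x₁ - x₂) / 4 * R
  rcases mul_eq_zero.1 key with h | h
  · exact absurd (sub_eq_zero.1 h) hx
  · exact sub_eq_zero.1 h

/-- ROW sqr. `P₁ + P₂` by `Point.add_of_X_ne`: `x₃ = addX x₁ x₂ slope`, `slope_of_X_ne`. With `l = (y₁ - y₂) / (x₁ - x₂)`: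
the cubic `x₃`-formula gives `(X - x₁) (X - x₂) (X - x₃) = -(polynomial of E at (X, l (X - x₁) + y₁))`; at `X = e` the
right side is `(l (e - x₁) + y₁ + (a₁ e + a₃) / 2) ^ 2` as `Root E e`. Direct: `field_simp`, `linear_combination` with the two
equations and (the image of) `Root`; characteristic not 2. Or Mathlib: `C_addPolynomial_slope`, `addPolynomial_slope`. -/
theorem rho_sq [CharZero k] {e : k} (he : Root E e) {x₁ y₁ x₂ y₂ x₃ y₃ : F}
    {h₁ : (E⁄F).Nonsingular x₁ y₁} {h₂ : (E⁄F).Nonsingular x₂ y₂} {h₃ : (E⁄F).Nonsingular x₃ y₃}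
    (hx : x₁ ≠ x₂)
    (hs : (Point.some x₁ y₁ h₁ : Pt E F) + Point.some x₂ y₂ h₂ = Point.some x₃ y₃ h₃) :
    (x₁ - algebraMap k F e) * (x₂ - algebraMap k F e) * (x₃ - algebraMap k F e) =
      rho E e x₁ y₁ x₂ y₂ ^ 2 := by
  have hF : CharZero F := charZero_of_injective_algebraMap (algebraMap k F).injective
  rw [Point.add_of_X_ne hx] at hs
  have hx3 := (Point.some.injEq _ _ _ _ _ _).mp hs |>.1
  rw [Affine.slope_of_X_ne hx] at hx3
  have H1 := (Affine.equation_iff _ _).1 h₁.1
  have H2 := (Affine.equation_iff _ _).1 h₂.1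
  have R : 4 * (algebraMap k F e) ^ 3 +
      ((algebraMap k F E.a₁) ^ 2 + 4 * (algebraMap k F E.a₂)) * (algebraMap k F e) ^ 2 +
      2 * (2 * (algebraMap k F E.a₄) + (algebraMap k F E.a₁) * (algebraMap k F E.a₃)) *
        (algebraMap k F e) + ((algebraMap k F E.a₃) ^ 2 + 4 * (algebraMap k F E.a₆)) = 0 := by
    have := congrArg (algebraMap k F) he
    simp only [WeierstrassCurve.b₂, WeierstrassCurve.b₄, WeierstrassCurve.b₆, map_add, map_mul,
      map_pow, map_zero, map_ofNat] at this
    exact this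
  have hl : (y₁ - y₂) / (x₁ - x₂) * (x₁ - x₂) = y₁ - y₂ :=
    div_mul_cancel₀ _ (sub_ne_zero.2 hx)
  have := sqr_id (algebraMap k F E.a₁) (algebraMap k F E.a₂) (algebraMap k F E.a₃)
    (algebraMap k F E.a₄) (algebraMap k F E.a₆) (algebraMap k F e) x₁ y₁ x₂ y₂ hx H1 H2 R _ hl
  rw [← hx3]
  exact this
-- END sqr

-- BEGIN rts
/-- ROW rts. The cubic has discriminant `16 Δ ≠ 0`: Mathlib's `twoTorsionPolynomial`, `twoTorsionPolynomial_disc`,
`Cubic.card_roots_of_disc_ne_zero` / `Cubic.disc_ne_zero_iff_roots_nodup` (`k` is algebraically closed). -/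
theorem roots_three [IsAlgClosed k] [CharZero k] [E.IsElliptic] :
    ∃ s : Finset k, s.card = 3 ∧ ∀ e ∈ s, Root E e := by
  have ha : E.twoTorsionPolynomial.a ≠ 0 := by
    show (4 : k) ≠ 0
    norm_num
  have hd : E.twoTorsionPolynomial.discr ≠ 0 := by
    rw [twoTorsionPolynomial_discr]
    exact mul_ne_zero (by norm_num) (WeierstrassCurve.isUnit_Δ E).ne_zero
  have hsp : (E.twoTorsionPolynomial.toPoly.map (RingHom.id k)).Splits := IsAlgClosed.splits _
  refine ⟨(Cubic.map (RingHom.id k) E.twoTorsionPolynomial).roots.toFinset,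
    Cubic.card_roots_of_discr_ne_zero ha hsp hd, fun e he => ?_⟩
  rw [Multiset.mem_toFinset, Cubic.mem_roots_iff] at he
  · exact he
  · exact Cubic.ne_zero_of_a_ne_zero ha
-- END rts

-- BEGIN rtw
/-- ROW rtw. `Root E x`: `(2 y + a₁ x + a₃) ^ 2 = 0` by the equation, so `y = negY x y`, `c + c = 0`
(`Point.add_self_of_Y_eq`). -/
theorem root_two {x y : k} (h : (E⁄k).Nonsingular x y) (he : Root E x) :
    (Point.some x y h : Pt E k) + Point.some x y h = 0 := by
  have ha1 : (E⁄k).a₁ = E.a₁ := rfl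
  have ha2 : (E⁄k).a₂ = E.a₂ := rfl
  have ha3 : (E⁄k).a₃ = E.a₃ := rfl
  have ha4 : (E⁄k).a₄ = E.a₄ := rfl
  have ha6 : (E⁄k).a₆ = E.a₆ := rfl
  have h1 := (Affine.equation_iff (W := (E⁄k)) x y).1 h.1
  rw [ha1, ha2, ha3, ha4, ha6] at h1
  have h2 : (2 * y + E.a₁ * x + E.a₃) ^ 2 = 0 := by
    unfold Root at he
    rw [WeierstrassCurve.b₂, WeierstrassCurve.b₄, WeierstrassCurve.b₆] at he
    linear_combination 4 * h1 + he
  have h3 : 2 * y + E.a₁ * x + E.a₃ = 0 := pow_eq_zero_iff two_ne_zero |>.1 h2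
  refine Point.add_self_of_Y_eq ?_
  rw [Affine.negY, ha1, ha3]
  linear_combination h3
-- END rtw

end alg

section deg

variable {k L M : Type} [Field k] [Field L] [Field M] [Algebra k L] [Algebra k M] [Algebra L M]
  [IsScalarTower k L M] [FiniteDimensional L M] [IsAlgClosed k] [CharZero k]

-- BEGIN hlf
/-- ROW hlf. `pol_form`: `v.ord (r ^ 2) = 2 * v.ord r` (also for `r = 0`), `v.ord (algebraMap κ) = 0`. -/
theorem half_deg (hL : IsFunField k L) {κ : k} (hκ : κ ≠ 0) (r : L) :
    fdeg k (algebraMap k L κ * r ^ 2) = 2 * fdeg k r := by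
  have h1 := pol_form hL (algebraMap k L κ * r ^ 2)
  have h2 := pol_form hL r
  have hord : ∀ v : Place k L, v.ord (algebraMap k L κ * r ^ 2) = 2 * v.ord r := by
    intro v
    by_cases hr : r = 0
    · rw [hr, zero_pow two_ne_zero, mul_zero, v.ord_zero, mul_zero]
    · have hκ' : algebraMap k L κ ≠ 0 := by
        intro h
        exact hκ ((map_eq_zero _).1 h)
      rw [v.ord_mul _ _ hκ' (pow_ne_zero 2 hr), v.ord_const, zero_add, v.ord_pow]
      norm_num
  have h3 : ∀ v : Place k L, max 0 (-(v.ord (algebraMap k L κ * r ^ 2))) =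
      2 * max 0 (-(v.ord r)) := by
    intro v
    rw [hord v]
    omega
  rw [finsum_congr h3, ← mul_finsum, h2] at h1
  exact_mod_cast h1.symm
-- END hlf

-- BEGIN shf
omit [FiniteDimensional L M] [IsAlgClosed k] [CharZero k] in
private theorem shf_adj (z : M) (e : k) :
    fdeg k (z - algebraMap L M (algebraMap k L e)) = fdeg k z := by
  have he : algebraMap L M (algebraMap k L e) = algebraMap k M e :=
    (IsScalarTower.algebraMap_apply k L M e).symm
  have h : IntermediateField.adjoin k {z - algebraMap L M (algebraMap k L e)} =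
      IntermediateField.adjoin k {z} := by
    rw [he]
    refine le_antisymm ?_ ?_
    · rw [IntermediateField.adjoin_simple_le_iff]
      exact sub_mem (IntermediateField.mem_adjoin_simple_self k z)
        (IntermediateField.algebraMap_mem _ e)
    · rw [IntermediateField.adjoin_simple_le_iff]
      have h1 := add_mem (IntermediateField.mem_adjoin_simple_self k (z - algebraMap k M e))
        (IntermediateField.algebraMap_mem (IntermediateField.adjoin k {z - algebraMap k M e}) e)
      rwa [sub_add_cancel] at h1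
  unfold fdeg
  rw [h]

/-- ROW shf. `minpoly L (z - e) = (minpoly L z).comp (X + C e)` (`minpoly.sub_algebraMap`), its coefficient `0` is the value at
`e`; `push` for `z - e`; `fdeg k (z - e) = fdeg k z` (the same field `k(z)`). -/
theorem push_eval (hL : IsFunField k L) (z : M) (e : k)
    (ht : Transcendental k ((minpoly L z).eval (algebraMap k L e))) :
    fdeg k ((minpoly L z).eval (algebraMap k L e)) ≤ fdeg k z := by
  have h1 : minpoly L (z - algebraMap L M (algebraMap k L e)) =
      (minpoly L z).comp (X + C (algebraMap k L e)) :=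
    minpoly.sub_algebraMap z (algebraMap k L e)
  have h2 : (minpoly L (z - algebraMap L M (algebraMap k L e))).coeff 0 =
      (minpoly L z).eval (algebraMap k L e) := by
    rw [h1, coeff_zero_eq_eval_zero, eval_comp]
    simp
  have h3 := push hL (z - algebraMap L M (algebraMap k L e)) 0
    (by rw [h2]; exact ht)
  rw [h2] at h3
  exact h3.trans_eq (shf_adj z e)
-- END shf

-- BEGIN lag
/-- ROW lag. `p = minpoly L z` of degree `n ≤ card s`, `p - X ^ n` has degree `< n` and its values at the points of `s` are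
constants (`const_of_alg`), so it is the image of the interpolation polynomial over `k` (`Lagrange.interpolate`,
`Polynomial.eq_of_degrees_lt_of_eval_finset_eq`); `z` is a root of a nonzero polynomial over `k`. -/
theorem lagr {z : M} (hz : Transcendental k z) (s : Finset k)
    (hs : (minpoly L z).natDegree ≤ s.card) :
    ∃ e ∈ s, Transcendental k ((minpoly L z).eval (algebraMap k L e)) := by
  by_contra hcon
  have hcon' : ∀ e ∈ s, ¬ Transcendental k ((minpoly L z).eval (algebraMap k L e)) :=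
    fun e he ht => hcon ⟨e, he, ht⟩
  have hmon : (minpoly L z).Monic := minpoly.monic (Algebra.IsIntegral.isIntegral (R := L) z)
  have hc0 : ∀ e : k, ∃ c : k, e ∈ s →
      (minpoly L z).eval (algebraMap k L e) = algebraMap k L c := by
    intro e
    by_cases he : e ∈ s
    · obtain ⟨c, hc⟩ := const_of_alg (hcon' e he)
      exact ⟨c, fun _ => hc⟩
    · exact ⟨0, fun h => absurd h he⟩
  choose c hc using hc0
  obtain ⟨s', hs', hcard⟩ := Finset.exists_subset_card_eq hs
  have hinj : Set.InjOn (id : k → k) s' := Function.injective_id.injOn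
  have hI : (Lagrange.interpolate s' id (fun e => c e - e ^ (minpoly L z).natDegree)).degree <
      (s'.card : WithBot ℕ) := Lagrange.degree_interpolate_lt _ hinj
  have hIe : ∀ e ∈ s', (Lagrange.interpolate s' id
      (fun e => c e - e ^ (minpoly L z).natDegree)).eval e = c e - e ^ (minpoly L z).natDegree :=
    fun e he => Lagrange.eval_interpolate_at_node _ hinj he
  generalize Lagrange.interpolate s' id (fun e => c e - e ^ (minpoly L z).natDegree) = I at hI hIe
  have hp : minpoly L z - X ^ (minpoly L z).natDegree = I.map (algebraMap k L) := by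
    refine Polynomial.eq_of_degrees_lt_of_eval_finset_eq
      (s'.map ⟨algebraMap k L, (algebraMap k L).injective⟩) ?_ ?_ ?_
    · rw [Finset.card_map, hcard, ← Polynomial.degree_eq_natDegree hmon.ne_zero]
      refine Polynomial.degree_sub_lt_left ?_ hmon.ne_zero ?_
      · rw [Polynomial.degree_X_pow, Polynomial.degree_eq_natDegree hmon.ne_zero]
      · rw [hmon.leadingCoeff, (monic_X_pow _).leadingCoeff]
    · rw [Finset.card_map, Polynomial.degree_map]
      exact hI
    · intro x hx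
      obtain ⟨e, he, rfl⟩ := Finset.mem_map.1 hx
      show eval (algebraMap k L e) _ = eval (algebraMap k L e) _
      rw [eval_sub, eval_pow, eval_X, hc e (hs' he), eval_map, eval₂_at_apply, hIe e he, map_sub,
        map_pow]
  have hP : (X ^ (minpoly L z).natDegree + I : k[X]).map (algebraMap k L) = minpoly L z := by
    rw [Polynomial.map_add, Polynomial.map_pow, map_X, ← hp]
    ring
  apply hz
  refine ⟨X ^ (minpoly L z).natDegree + I, ?_, ?_⟩
  · intro h0
    rw [h0, Polynomial.map_zero] at hP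
    exact hmon.ne_zero hP.symm
  · have h2 : aeval z ((X ^ (minpoly L z).natDegree + I : k[X]).map (algebraMap k L)) = 0 := by
      rw [hP]
      exact minpoly.aeval L z
    rwa [Polynomial.aeval_map_algebraMap] at h2
-- END lag

/-- The bound for the gonality from squares. -/
theorem gon_sq (hL : IsFunField k L) {z : M} (hz : Transcendental k z) (s : Finset k)
    (hs : (minpoly L z).natDegree ≤ s.card)
    (hr : ∀ e ∈ s, ∃ (κ : k) (r : L), κ ≠ 0 ∧
      (minpoly L z).eval (algebraMap k L e) = algebraMap k L κ * r ^ 2) :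
    2 * gon k L ≤ fdeg k z := by
  obtain ⟨e, he, ht⟩ := lagr hz s hs
  obtain ⟨κ, r, hκ, hκr⟩ := hr e he
  have h1 := push_eval hL z e ht
  have h2 := (fd_pos hL _).2 ht
  rw [hκr, half_deg hL hκ r] at h1 h2
  have h3 : Transcendental k r := (fd_pos hL r).1 (by omega)
  have h4 := (gonx hL).2.1 r h3
  omega

-- BEGIN odd
/-- ROW odd. If `r ∉ L`: `minpoly L r` has degree 2 (it divides `X ^ 2 - C u`) and divides `finrank L M = 3`
(`minpoly.degree_dvd`). -/
theorem odd_sq (h3 : finrank L M = 3) {r : M} {u : L} (h : r ^ 2 = algebraMap L M u) :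
    ∃ r' : L, r' ^ 2 = u := by
  have hi : IsIntegral L r := Algebra.IsIntegral.isIntegral r
  have hd : (minpoly L r).natDegree ∣ 3 := h3 ▸ minpoly.degree_dvd hi
  have hdvd : minpoly L r ∣ X ^ 2 - C u := by
    apply minpoly.dvd
    simp [h]
  have hm : (X ^ 2 - C u : L[X]).Monic := monic_X_pow_sub_C u two_ne_zero
  have h2 : (minpoly L r).natDegree ≤ 2 := by
    have := natDegree_le_of_dvd hdvd hm.ne_zero
    rwa [natDegree_X_pow_sub_C] at this
  have h1 : (minpoly L r).natDegree = 1 := by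
    rcases (Nat.dvd_prime Nat.prime_three).1 hd with h1 | h1
    · exact h1
    · omega
  obtain ⟨r', hr'⟩ := minpoly.mem_range_of_degree_eq_one L r
    ((degree_eq_iff_natDegree_eq (minpoly.ne_zero hi)).2 h1)
  refine ⟨r', ?_⟩
  apply (algebraMap L M).injective
  rw [map_pow, hr', h]
-- END odd

-- BEGIN prm
/-- ROW prm. `minpoly.degree_dvd`, prime degree; degree 1: `minpoly.mem_range_of_degree_eq_one`. -/
theorem deg_prime (hp : (finrank L M).Prime) (z : M) :
    (minpoly L z).natDegree = finrank L M ∨ ∃ w : L, algebraMap L M w = z := by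
  have h0 : IsIntegral L z := Algebra.IsIntegral.isIntegral z
  rcases (Nat.dvd_prime hp).1 (minpoly.degree_dvd h0) with h1 | h1
  · right
    have h2 : (minpoly L z).degree = 1 := by
      rw [Polynomial.degree_eq_natDegree (minpoly.ne_zero h0), h1]
      rfl
    exact minpoly.mem_range_of_degree_eq_one L z h2
  · exact Or.inl h1
-- END prm

end deg

section two

variable {k L M N : Type} [Field k] [Field L] [Field M] [Field N] [Algebra k L] [Algebra k M]
  [Algebra k N] [Algebra L M] [Algebra L N] [Algebra M N] [IsScalarTower k L M]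
  [IsScalarTower k L N] [IsScalarTower k M N] [IsScalarTower L M N] [FiniteDimensional L M]
  [FiniteDimensional M N] [Normal L N] [IsAlgClosed k] [CharZero k] [CharZero L] {E : Affine k}
  [E.IsElliptic]

-- BEGIN enu2
private theorem enu2_univ (h2 : finrank L M = 2) : ∃ τ : M →ₐ[L] N,
    IsScalarTower.toAlgHom L M N ≠ τ ∧
      (Finset.univ : Finset (M →ₐ[L] N)) = {IsScalarTower.toAlgHom L M N, τ} := by
  have hc : (Finset.univ : Finset (M →ₐ[L] N)).card = 2 := by
    rw [Finset.card_univ, card_hom, h2]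
  obtain ⟨x, y, hxy, hu⟩ := Finset.card_eq_two.1 hc
  have hm : IsScalarTower.toAlgHom L M N ∈ (Finset.univ : Finset (M →ₐ[L] N)) := Finset.mem_univ _
  rw [hu, Finset.mem_insert, Finset.mem_singleton] at hm
  rcases hm with hm | hm
  · exact ⟨y, by rw [hm]; exact hxy, by rw [hu, hm]⟩
  · exact ⟨x, by rw [hm]; exact hxy.symm, by rw [hu, hm, Finset.pair_comm]⟩

/-- ROW enu2. `card_hom`: there is one other homomorphism `τ`; the sum and the product over `univ = {ι, τ}`
(`minpoly_prod`); `x ≠ τ x` by injectivity. `ι = IsScalarTower.toAlgHom L M N`. -/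
theorem enum_two (h2 : finrank L M = 2) {z : M} (hz : (minpoly L z).natDegree = finrank L M) :
    ∃ τ : M →ₐ[L] N, algebraMap M N z ≠ τ z ∧
      (∀ σ : N ≃ₐ[L] N, (∀ m : M, σ (algebraMap M N m) = algebraMap M N m ∧ σ (τ m) = τ m) ∨
        ∀ m : M, σ (algebraMap M N m) = τ m ∧ σ (τ m) = algebraMap M N m) ∧
      (∀ P : Pt E M, TrS (N := N) L P =
        pm (IsScalarTower.toAlgHom k M N) P + pm (τ.restrictScalars k) P) ∧
      ∀ e : k, algebraMap L N ((minpoly L z).eval (algebraMap k L e)) =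
        (algebraMap M N z - algebraMap k N e) * (τ z - algebraMap k N e) := by
  obtain ⟨τ, hτ, hu⟩ := enu2_univ (N := N) h2
  obtain ⟨hp, hinj⟩ := minpoly_prod (N := N) hz
  have hall : ∀ φ : M →ₐ[L] N, φ = IsScalarTower.toAlgHom L M N ∨ φ = τ := by
    intro φ
    have hm : φ ∈ (Finset.univ : Finset (M →ₐ[L] N)) := Finset.mem_univ _
    rw [hu, Finset.mem_insert, Finset.mem_singleton] at hm
    exact hm
  refine ⟨τ, fun h => hτ (hinj h), ?_, ?_, ?_⟩
  · intro σ
    have hcan : ∀ φ ψ : M →ₐ[L] N, (σ : N →ₐ[L] N).comp φ = (σ : N →ₐ[L] N).comp ψ → φ = ψ := by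
      intro φ ψ h
      ext m
      exact σ.injective (DFunLike.congr_fun h m)
    rcases hall ((σ : N →ₐ[L] N).comp (IsScalarTower.toAlgHom L M N)) with h1 | h1
    · left
      rcases hall ((σ : N →ₐ[L] N).comp τ) with h3 | h3
      · exact absurd (hcan _ _ (h1.trans h3.symm)) hτ
      · exact fun m => ⟨DFunLike.congr_fun h1 m, DFunLike.congr_fun h3 m⟩
    · right
      rcases hall ((σ : N →ₐ[L] N).comp τ) with h3 | h3
      · exact fun m => ⟨DFunLike.congr_fun h1 m, DFunLike.congr_fun h3 m⟩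
      · exact absurd (hcan _ _ (h1.trans h3.symm)) hτ
  · intro P
    unfold TrS
    rw [hu, Finset.sum_pair hτ]
    rfl
  · intro e
    have h4 := congrArg (Polynomial.eval (algebraMap L N (algebraMap k L e))) hp
    rw [Polynomial.eval_map, Polynomial.eval₂_at_apply, hu, Finset.prod_pair hτ,
      Polynomial.eval_mul, Polynomial.eval_sub, Polynomial.eval_sub, Polynomial.eval_X,
      Polynomial.eval_C, Polynomial.eval_C, ← IsScalarTower.algebraMap_apply k L N] at h4
    rw [h4]
    show (algebraMap k N e - algebraMap M N z) * (algebraMap k N e - τ z) = _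
    ring
-- END enu2

-- BEGIN enu3
private theorem enu3_univ (h3 : finrank L M = 3) : ∃ τ₂ τ₃ : M →ₐ[L] N,
    IsScalarTower.toAlgHom L M N ≠ τ₂ ∧ IsScalarTower.toAlgHom L M N ≠ τ₃ ∧ τ₂ ≠ τ₃ ∧
      (Finset.univ : Finset (M →ₐ[L] N)) = insert (IsScalarTower.toAlgHom L M N) {τ₂, τ₃} := by
  have hc : (Finset.univ : Finset (M →ₐ[L] N)).card = 3 := by
    rw [Finset.card_univ, card_hom, h3]
  have hm : IsScalarTower.toAlgHom L M N ∈ (Finset.univ : Finset (M →ₐ[L] N)) := Finset.mem_univ _
  have he : ((Finset.univ : Finset (M →ₐ[L] N)).erase (IsScalarTower.toAlgHom L M N)).card = 2 := by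
    rw [Finset.card_erase_of_mem hm, hc]
  obtain ⟨x, y, hxy, hu⟩ := Finset.card_eq_two.1 he
  have hx : x ∈ (Finset.univ : Finset (M →ₐ[L] N)).erase (IsScalarTower.toAlgHom L M N) := by
    rw [hu]
    exact Finset.mem_insert_self _ _
  have hy : y ∈ (Finset.univ : Finset (M →ₐ[L] N)).erase (IsScalarTower.toAlgHom L M N) := by
    rw [hu]
    exact Finset.mem_insert_of_mem (Finset.mem_singleton_self _)
  refine ⟨x, y, (Finset.ne_of_mem_erase hx).symm, (Finset.ne_of_mem_erase hy).symm, hxy, ?_⟩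
  rw [← hu, Finset.insert_erase hm]

/-- ROW enu3. As `enu2`; `(-1) ^ 3`. An automorphism over `M` permutes the two other homomorphisms. -/
theorem enum_three (h3 : finrank L M = 3) {z : M} (hz : (minpoly L z).natDegree = finrank L M) :
    ∃ τ₂ τ₃ : M →ₐ[L] N, τ₂ z ≠ τ₃ z ∧
      (∀ σ : N ≃ₐ[M] N, (∀ m : M, σ (τ₂ m) = τ₂ m ∧ σ (τ₃ m) = τ₃ m) ∨
        ∀ m : M, σ (τ₂ m) = τ₃ m ∧ σ (τ₃ m) = τ₂ m) ∧
      (∀ P : Pt E M, TrS (N := N) L P =
        pm (IsScalarTower.toAlgHom k M N) P + pm (τ₂.restrictScalars k) P +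
          pm (τ₃.restrictScalars k) P) ∧
      ∀ e : k, algebraMap L N ((minpoly L z).eval (algebraMap k L e)) =
        -((algebraMap M N z - algebraMap k N e) * (τ₂ z - algebraMap k N e) *
          (τ₃ z - algebraMap k N e)) := by
  obtain ⟨τ₂, τ₃, h12, h13, h23, hu⟩ := enu3_univ (N := N) h3
  obtain ⟨hp, hinj⟩ := minpoly_prod (N := N) hz
  have hall : ∀ φ : M →ₐ[L] N, φ = IsScalarTower.toAlgHom L M N ∨ φ = τ₂ ∨ φ = τ₃ := by
    intro φ
    have hm : φ ∈ (Finset.univ : Finset (M →ₐ[L] N)) := Finset.mem_univ _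
    rw [hu, Finset.mem_insert, Finset.mem_insert, Finset.mem_singleton] at hm
    exact hm
  have hni : IsScalarTower.toAlgHom L M N ∉ ({τ₂, τ₃} : Finset (M →ₐ[L] N)) := by
    rw [Finset.mem_insert, Finset.mem_singleton]
    rintro (h | h)
    · exact h12 h
    · exact h13 h
  refine ⟨τ₂, τ₃, fun h => h23 (hinj h), ?_, ?_, ?_⟩
  · intro σ
    let s : N →ₐ[L] N := ((σ : N →ₐ[M] N).restrictScalars L)
    have hs : ∀ a : N, s a = σ a := fun a => rfl
    have hcan : ∀ φ ψ : M →ₐ[L] N, s.comp φ = s.comp ψ → φ = ψ := by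
      intro φ ψ h
      ext m
      exact σ.injective (DFunLike.congr_fun h m)
    have hfix : s.comp (IsScalarTower.toAlgHom L M N) = IsScalarTower.toAlgHom L M N := by
      ext m
      exact σ.commutes m
    have g2 : s.comp τ₂ = τ₂ ∨ s.comp τ₂ = τ₃ := by
      rcases hall (s.comp τ₂) with h | h
      · exact absurd (hcan _ _ (hfix.trans h.symm)) h12
      · exact h
    have g3 : s.comp τ₃ = τ₂ ∨ s.comp τ₃ = τ₃ := by
      rcases hall (s.comp τ₃) with h | h
      · exact absurd (hcan _ _ (hfix.trans h.symm)) h13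
      · exact h
    rcases g2 with h1 | h1
    · left
      rcases g3 with h2 | h2
      · exact absurd (hcan _ _ (h1.trans h2.symm)) h23
      · exact fun m => ⟨DFunLike.congr_fun h1 m, DFunLike.congr_fun h2 m⟩
    · right
      rcases g3 with h2 | h2
      · exact fun m => ⟨DFunLike.congr_fun h1 m, DFunLike.congr_fun h2 m⟩
      · exact absurd (hcan _ _ (h1.trans h2.symm)) h23
  · intro P
    unfold TrS
    rw [hu, Finset.sum_insert hni, Finset.sum_pair h23, ← add_assoc]
    rfl
  · intro e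
    have h4 := congrArg (Polynomial.eval (algebraMap L N (algebraMap k L e))) hp
    rw [Polynomial.eval_map, Polynomial.eval₂_at_apply, hu, Finset.prod_insert hni,
      Finset.prod_pair h23, Polynomial.eval_mul, Polynomial.eval_mul, Polynomial.eval_sub,
      Polynomial.eval_sub, Polynomial.eval_sub, Polynomial.eval_X,
      Polynomial.eval_C, Polynomial.eval_C, Polynomial.eval_C,
      ← IsScalarTower.algebraMap_apply k L N] at h4
    rw [h4]
    show (algebraMap k N e - algebraMap M N z) *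
      ((algebraMap k N e - τ₂ z) * (algebraMap k N e - τ₃ z)) = _
    ring
-- END enu3

-- BEGIN fix
/-- ROW fix. `IsGalois M N`, resp. `IsGalois L N` (characteristic 0, normal; `Normal.tower_top_of_normal`):
`IsGalois.mem_bot_iff_fixed` / `IntermediateField.mem_bot`. -/
theorem fixed_M (_hN : Normal L N) {a : N} (h : ∀ σ : N ≃ₐ[M] N, σ a = a) :
    ∃ b : M, algebraMap M N b = a := by
  have h1 : Normal M N := Normal.tower_top_of_normal L M N
  have h2 : CharZero M := charZero_of_injective_algebraMap (algebraMap L M).injective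
  have h3 : Algebra.IsSeparable M N := inferInstance
  have h4 : IsGalois M N := ⟨⟩
  have h5 := (IsGalois.mem_bot_iff_fixed (F := M) (E := N) a).2 h
  exact IntermediateField.mem_bot.1 h5

theorem fixed_L {a : N} (h : ∀ σ : N ≃ₐ[L] N, σ a = a) : ∃ b : L, algebraMap L N b = a := by
  have h3 : Algebra.IsSeparable L N := inferInstance
  have h4 : IsGalois L N := ⟨⟩
  have h5 := (InfiniteGalois.mem_bot_iff_fixed (k := L) (K := N) a).2 h
  exact IntermediateField.mem_bot.1 h5
-- END fix

-- BEGIN two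
/-- ROW two. `c ≠ 0`, `c = some xc yc`. `enum_two`; `e` with `e ≠ xc`. `rho_sq` in `N` for `P₁ = (x, y)`, `P₂ = (τ x, τ y)`,
`P₁ + P₂ = c`: `(x - e) (τ x - e) (xc - e) = rho ^ 2`, and `rho ∈ L` by `fixed_L` (`rho_map`, `rho_symm`).
`κ = (xc - e)⁻¹`. -/
theorem two_ne {x y : M} (h : (E⁄M).Nonsingular x y) (h2 : finrank L M = 2)
    (hz : (minpoly L x).natDegree = finrank L M) {xc yc : k} (hc : (E⁄k).Nonsingular xc yc)
    (hS : TrS (N := N) L (Point.some x y h : Pt E M) =
      pm (Algebra.ofId k N) (Point.some xc yc hc : Pt E k))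
    {e : k} (he : Root E e) (hne : e ≠ xc) :
    ∃ (κ : k) (r : L), κ ≠ 0 ∧
      (minpoly L x).eval (algebraMap k L e) = algebraMap k L κ * r ^ 2 := by
  obtain ⟨τ, hτ, hσ, hT, hev⟩ := enum_two (N := N) (E := E) h2 hz
  have hs := (hT (Point.some x y h)).symm.trans hS
  rw [Point.map_some, Point.map_some, Point.map_some] at hs
  have hsq := rho_sq he (show (IsScalarTower.toAlgHom k M N) x ≠ (τ.restrictScalars k) x from hτ) hs
  obtain ⟨r, hr⟩ : ∃ r : L, algebraMap L N r = rho E e ((IsScalarTower.toAlgHom k M N) x)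
      ((IsScalarTower.toAlgHom k M N) y) ((τ.restrictScalars k) x) ((τ.restrictScalars k) y) := by
    refine fixed_L fun σ => ?_
    have h3 := rho_map (E := E) ((σ : N →ₐ[L] N).restrictScalars k) e
      ((IsScalarTower.toAlgHom k M N) x) ((IsScalarTower.toAlgHom k M N) y)
      ((τ.restrictScalars k) x) ((τ.restrictScalars k) y)
    refine Eq.trans h3 ?_
    rcases hσ σ with h4 | h4
    · rw [show ((σ : N →ₐ[L] N).restrictScalars k) ((IsScalarTower.toAlgHom k M N) x) =
          (IsScalarTower.toAlgHom k M N) x from (h4 x).1,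
        show ((σ : N →ₐ[L] N).restrictScalars k) ((IsScalarTower.toAlgHom k M N) y) =
          (IsScalarTower.toAlgHom k M N) y from (h4 y).1,
        show ((σ : N →ₐ[L] N).restrictScalars k) ((τ.restrictScalars k) x) =
          (τ.restrictScalars k) x from (h4 x).2,
        show ((σ : N →ₐ[L] N).restrictScalars k) ((τ.restrictScalars k) y) =
          (τ.restrictScalars k) y from (h4 y).2]
    · rw [show ((σ : N →ₐ[L] N).restrictScalars k) ((IsScalarTower.toAlgHom k M N) x) =
          (τ.restrictScalars k) x from (h4 x).1,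
        show ((σ : N →ₐ[L] N).restrictScalars k) ((IsScalarTower.toAlgHom k M N) y) =
          (τ.restrictScalars k) y from (h4 y).1,
        show ((σ : N →ₐ[L] N).restrictScalars k) ((τ.restrictScalars k) x) =
          (IsScalarTower.toAlgHom k M N) x from (h4 x).2,
        show ((σ : N →ₐ[L] N).restrictScalars k) ((τ.restrictScalars k) y) =
          (IsScalarTower.toAlgHom k M N) y from (h4 y).2]
      exact (rho_symm e hτ).symm
  have hd : xc - e ≠ 0 := sub_ne_zero.2 hne.symm
  refine ⟨(xc - e)⁻¹, r, inv_ne_zero hd, (algebraMap L N).injective ?_⟩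
  rw [hev e, map_mul, map_pow, hr, ← IsScalarTower.algebraMap_apply k L N, ← hsq]
  have h5 : algebraMap k N (xc - e)⁻¹ * ((Algebra.ofId k N) xc - algebraMap k N e) = 1 := by
    rw [show (Algebra.ofId k N) xc = algebraMap k N xc from rfl, ← map_sub, ← map_mul,
      inv_mul_cancel₀ hd, map_one]
  have h6 : (IsScalarTower.toAlgHom k M N) x = algebraMap M N x := rfl
  have h7 : (τ.restrictScalars k) x = τ x := rfl
  rw [h6, h7]
  linear_combination -((algebraMap M N x - algebraMap k N e) * (τ x - algebraMap k N e)) * h5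
-- END two

-- BEGIN twz
/-- ROW twz. `enum_two`: `(τ x, τ y) = -(x, y)`, so `τ x = x`: contradiction. -/
theorem two_zero {x y : M} (h : (E⁄M).Nonsingular x y) (h2 : finrank L M = 2)
    (hz : (minpoly L x).natDegree = finrank L M)
    (hS : TrS (N := N) L (Point.some x y h : Pt E M) = 0) : False := by
  obtain ⟨τ, hne, _, hT, _⟩ := enum_two (k := k) (L := L) (M := M) (N := N) (E := E) h2 hz
  rw [hT] at hS
  have h1 := eq_neg_of_add_eq_zero_left hS
  simp only [pm, Point.map_some, Point.neg_some, Point.some.injEq] at h1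
  exact hne h1.1
-- END twz

-- BEGIN thz
/-- ROW thz. `enum_three`; `P₂ + P₃ = -P₁`, `x(-P₁) = x`; `rho_sq` in `N` for `P₂`, `P₃`: minus the value of the minimal
polynomial at `e` is `rho ^ 2`; `rho` is in `M` (`fixed_M`, `rho_map`, `rho_symm`), `odd_sq`; `κ = -1`. -/
theorem three_zero {x y : M} (h : (E⁄M).Nonsingular x y) (h3 : finrank L M = 3)
    (hz : (minpoly L x).natDegree = finrank L M)
    (hS : TrS (N := N) L (Point.some x y h : Pt E M) = 0) {e : k} (he : Root E e) :
    ∃ (κ : k) (r : L), κ ≠ 0 ∧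
      (minpoly L x).eval (algebraMap k L e) = algebraMap k L κ * r ^ 2 := by
  obtain ⟨τ₂, τ₃, hne, hσ, hTr, hval⟩ := enum_three (k := k) (N := N) (E := E) h3 hz
  have hv := hval e
  have hsum := hTr (Point.some x y h : Pt E M)
  rw [hS] at hsum
  have h23 : pm (τ₂.restrictScalars k) (Point.some x y h : Pt E M) +
      pm (τ₃.restrictScalars k) (Point.some x y h : Pt E M) =
      -pm (IsScalarTower.toAlgHom k M N) (Point.some x y h : Pt E M) := by
    rw [eq_neg_iff_add_eq_zero, hsum]
    abel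
  rw [Point.map_some, Point.map_some, Point.map_some, Point.neg_some] at h23
  have hsq : (τ₂ x - algebraMap k N e) * (τ₃ x - algebraMap k N e) *
      (algebraMap M N x - algebraMap k N e) = rho E e (τ₂ x) (τ₂ y) (τ₃ x) (τ₃ y) ^ 2 :=
    rho_sq he hne h23
  have hfix : ∀ σ : N ≃ₐ[M] N, σ (rho E e (τ₂ x) (τ₂ y) (τ₃ x) (τ₃ y)) =
      rho E e (τ₂ x) (τ₂ y) (τ₃ x) (τ₃ y) := by
    intro σ
    have e1 : σ (rho E e (τ₂ x) (τ₂ y) (τ₃ x) (τ₃ y)) =
        rho E e (σ (τ₂ x)) (σ (τ₂ y)) (σ (τ₃ x)) (σ (τ₃ y)) :=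
      rho_map (E := E) ((σ : N →ₐ[M] N).restrictScalars k) e (τ₂ x) (τ₂ y) (τ₃ x) (τ₃ y)
    rcases hσ σ with h1 | h1
    · rw [e1, (h1 x).1, (h1 y).1, (h1 x).2, (h1 y).2]
    · rw [e1, (h1 x).1, (h1 y).1, (h1 x).2, (h1 y).2]
      exact rho_symm e hne.symm
  obtain ⟨b, hb⟩ := fixed_M (L := L) (M := M) (N := N) inferInstance hfix
  have h4 : algebraMap L N ((minpoly L x).eval (algebraMap k L e)) =
      -rho E e (τ₂ x) (τ₂ y) (τ₃ x) (τ₃ y) ^ 2 := by
    rw [hv]
    linear_combination -hsq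
  have h5 : b ^ 2 = algebraMap L M (-(minpoly L x).eval (algebraMap k L e)) := by
    apply (algebraMap M N).injective
    rw [map_pow, hb, ← IsScalarTower.algebraMap_apply L M N, map_neg, h4, neg_neg]
  obtain ⟨r, hr⟩ := odd_sq h3 h5
  refine ⟨-1, r, by norm_num, ?_⟩
  rw [hr, map_neg, map_one]
  ring
-- END thz

-- BEGIN thn
omit [FiniteDimensional L M] [IsAlgClosed k] [CharZero k] [CharZero L] in
private theorem thn_const {x : M} (h3 : finrank L M = 3)
    (hz : (minpoly L x).natDegree = finrank L M) (a : k) : x ≠ algebraMap k M a := by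
  rintro rfl
  rw [IsScalarTower.algebraMap_apply k L M, minpoly.eq_X_sub_C, natDegree_X_sub_C, h3] at hz
  omega

omit [IsAlgClosed k] [E.IsElliptic] in
private theorem thn_kpt {e : k} (he : Root E e) {xR yR : M} (hR : (E⁄M).Nonsingular xR yR)
    (hx : xR = algebraMap k M e) :
    ∃ q : Pt E k, pm (Algebra.ofId k M) q = (Point.some xR yR hR : Pt E M) := by
  have h2 : (2 : M) ≠ 0 := by
    have h4 : (algebraMap k M) 2 ≠ 0 := by
      rw [Ne, map_eq_zero]
      exact two_ne_zero
    rwa [map_ofNat] at h4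
  have heq := (Affine.equation_iff ..).1 hR.1
  have hroot := congrArg (algebraMap k M) he
  unfold WeierstrassCurve.b₂ WeierstrassCurve.b₄ WeierstrassCurve.b₆ at hroot
  simp only [map_add, map_mul, map_pow, map_ofNat, map_zero] at hroot
  have hy : yR = algebraMap k M (-(E.a₁ * e + E.a₃) / 2) := by
    have h5 : (2 * yR + algebraMap k M E.a₁ * algebraMap k M e + algebraMap k M E.a₃) ^ 2 = 0 := by
      subst hx
      have h6 : (E⁄M).a₁ = algebraMap k M E.a₁ := rfl
      have h7 : (E⁄M).a₂ = algebraMap k M E.a₂ := rfl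
      have h8 : (E⁄M).a₃ = algebraMap k M E.a₃ := rfl
      have h9 : (E⁄M).a₄ = algebraMap k M E.a₄ := rfl
      have h10 : (E⁄M).a₆ = algebraMap k M E.a₆ := rfl
      rw [h6, h7, h8, h9, h10] at heq
      linear_combination 4 * heq + hroot
    have h11 := pow_eq_zero_iff (two_ne_zero) |>.1 h5
    rw [map_div₀, map_neg, map_add, map_mul, map_ofNat, eq_div_iff h2]
    linear_combination h11
  have hk : (E⁄k).Nonsingular e (-(E.a₁ * e + E.a₃) / 2) := by
    rw [← E.baseChange_nonsingular (Algebra.ofId k M).injective]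
    rw [hx, hy] at hR
    exact hR
  refine ⟨Point.some _ _ hk, ?_⟩
  rw [Point.map_some]
  subst hx
  subst hy
  rfl

/-- ROW thn. `x` is not in the image of `k` (otherwise `minpoly L x` has degree 1). `enum_three`; in `Pt E M`:
`R = c - P₁`, not `0` and `x(R)` not a constant (otherwise `P₁ = c - R` has constant coordinates: `R = some xR yR` with `xR` the
image of `a : k` gives `yR` in the image of `k`, as in `const_pt`). In `N`: `P₂ + P₃ = R`, `rho_sq`:
`(x₂ - e) (x₃ - e) (xR - e) = rho₁ ^ 2`, `rho₁ ∈ M` (`fixed_M`). In `M`: `P₁ + (-c) = -R`, `x ≠ xc`: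
`(x - e) (xc - e) (xR - e) = rho₂ ^ 2`. So `-(value at e) * (xc - e) = (rho₁ rho₂ / (xR - e)) ^ 2`, `odd_sq`,
`κ = -(xc - e)⁻¹`. -/
theorem three_ne {x y : M} (h : (E⁄M).Nonsingular x y) (h3 : finrank L M = 3)
    (hz : (minpoly L x).natDegree = finrank L M) {xc yc : k} (hc : (E⁄k).Nonsingular xc yc)
    (hS : TrS (N := N) L (Point.some x y h : Pt E M) =
      pm (Algebra.ofId k N) (Point.some xc yc hc : Pt E k))
    {e : k} (he : Root E e) (hne : e ≠ xc) :
    ∃ (κ : k) (r : L), κ ≠ 0 ∧
      (minpoly L x).eval (algebraMap k L e) = algebraMap k L κ * r ^ 2 := by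
  obtain ⟨τ₂, τ₃, hne23, hσ, htr, hval⟩ := enum_three (N := N) (E := E) h3 hz
  have hcst := thn_const (k := k) (L := L) h3 hz
  obtain ⟨R, hRd⟩ : ∃ R : Pt E M, R = pm (Algebra.ofId k M) (Point.some xc yc hc : Pt E k) -
    (Point.some x y h : Pt E M) := ⟨_, rfl⟩
  have hRk : ∀ q : Pt E k, pm (Algebra.ofId k M) q ≠ R := by
    intro q hq
    have h1 : (Point.some x y h : Pt E M) =
        pm (Algebra.ofId k M) ((Point.some xc yc hc : Pt E k) - q) := by
      rw [map_sub, hq, hRd]
      abel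
    cases hcq : ((Point.some xc yc hc : Pt E k) - q) with
    | zero =>
      rw [hcq] at h1
      exact Point.some_ne_zero h h1
    | some u v huv =>
      rw [hcq, Point.map_some, Point.some.injEq] at h1
      exact hcst u h1.1
  have hRN : pm (IsScalarTower.toAlgHom k M N) R =
      pm (τ₂.restrictScalars k) (Point.some x y h : Pt E M) +
        pm (τ₃.restrictScalars k) (Point.some x y h : Pt E M) := by
    have h1 : pm (IsScalarTower.toAlgHom k M N) (pm (Algebra.ofId k M)
        (Point.some xc yc hc : Pt E k)) = pm (Algebra.ofId k N) (Point.some xc yc hc : Pt E k) := by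
      have h2 : (IsScalarTower.toAlgHom k M N).comp (Algebra.ofId k M) = Algebra.ofId k N :=
        AlgHom.ext fun a => (IsScalarTower.algebraMap_apply k M N a).symm
      rw [Point.map_map, h2]
    rw [hRd, map_sub, h1, ← hS, htr]
    abel
  cases hR : R with
  | zero =>
    exact absurd (by rw [hR]; exact map_zero _) (hRk 0)
  | some xR yR hRn =>
    have hxR : xR ≠ algebraMap k M e := by
      intro hx
      obtain ⟨q, hq⟩ := thn_kpt he hRn hx
      exact hRk q (by rw [hq, hR])
    -- the square in `N`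
    rw [hR, Point.map_some, Point.map_some, Point.map_some] at hRN
    have hsq1 := rho_sq he hne23 hRN.symm
    have hfix : ∀ σ : N ≃ₐ[M] N, σ (rho E e (τ₂ x) (τ₂ y) (τ₃ x) (τ₃ y)) =
        rho E e (τ₂ x) (τ₂ y) (τ₃ x) (τ₃ y) := by
      intro σ
      have h1 := rho_map (E := E) ((σ : N →ₐ[M] N).restrictScalars k) e (τ₂ x) (τ₂ y) (τ₃ x) (τ₃ y)
      have h2 : ∀ z : N, ((σ : N →ₐ[M] N).restrictScalars k) z = σ z := fun z => rfl
      rw [h2, h2, h2, h2, h2] at h1
      rcases hσ σ with h4 | h4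
      · rw [h1, (h4 x).1, (h4 y).1, (h4 x).2, (h4 y).2]
      · rw [h1, (h4 x).1, (h4 y).1, (h4 x).2, (h4 y).2]
        exact rho_symm e hne23.symm
    obtain ⟨r₁, hr₁⟩ := fixed_M (L := L) inferInstance hfix
    -- the square in `M`
    have hneg : (Point.some x y h : Pt E M) +
        pm (Algebra.ofId k M) (-(Point.some xc yc hc : Pt E k)) = -R := by
      rw [hRd, map_neg]
      abel
    rw [Point.neg_some, Point.map_some, hR, Point.neg_some] at hneg
    obtain ⟨ρ₂, hsq2⟩ : ∃ z : M, (x - algebraMap k M e) * (algebraMap k M xc - algebraMap k M e) *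
        (xR - algebraMap k M e) = z ^ 2 := ⟨_, rho_sq he (hcst xc) hneg⟩
    have hsq1' : (τ₂ x - algebraMap k N e) * (τ₃ x - algebraMap k N e) *
        (algebraMap M N xR - algebraMap k N e) = (algebraMap M N r₁) ^ 2 := by
      rw [hr₁]
      exact hsq1
    obtain ⟨V, hV⟩ : ∃ z : L, z = (minpoly L x).eval (algebraMap k L e) := ⟨_, rfl⟩
    have hvalV := hval e
    rw [← hV] at hvalV ⊢
    have hd : xR - algebraMap k M e ≠ 0 := sub_ne_zero.2 hxR
    have hdN : algebraMap M N xR - algebraMap k N e ≠ 0 := by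
      intro h0
      apply hd
      apply (algebraMap M N).injective
      rw [map_sub, map_zero, ← IsScalarTower.algebraMap_apply k M N]
      exact h0
    have hsq2N := congrArg (algebraMap M N) hsq2
    rw [map_mul, map_mul, map_sub, map_sub, map_sub, map_pow,
      ← IsScalarTower.algebraMap_apply k M N, ← IsScalarTower.algebraMap_apply k M N] at hsq2N
    obtain ⟨r', hr'⟩ := odd_sq h3 (r := r₁ * ρ₂ / (xR - algebraMap k M e))
      (u := -V * algebraMap k L (xc - e)) (by
        apply (algebraMap M N).injective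
        rw [← IsScalarTower.algebraMap_apply L M N, map_mul, map_neg, hvalV,
          ← IsScalarTower.algebraMap_apply k L N, map_pow, map_div₀, map_mul, map_sub, map_sub,
          ← IsScalarTower.algebraMap_apply k M N, div_pow, mul_pow, ← hsq1', ← hsq2N]
        field_simp)
    have hce : algebraMap k L (xc - e) ≠ 0 := by
      rw [Ne, map_eq_zero]
      exact sub_ne_zero.2 hne.symm
    refine ⟨-(xc - e)⁻¹, r', neg_ne_zero.2 (inv_ne_zero (sub_ne_zero.2 hne.symm)), ?_⟩
    rw [hr', map_neg, map_inv₀]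
    field_simp
-- END thn

end two

end Pool.Agent.CorE
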