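import Pool.Agent.CorE.Hgt

/-!
# Points of a constant elliptic curve over a function field: the trace
-/

set_option autoImplicit false

open Module WeierstrassCurve WeierstrassCurve.Affine Polynomial

open scoped Classical

noncomputable section

namespace Pool.Agent.CorE

open Pool.Agent.EllHiggs Pool.Agent.CorD

/-- The image of a point under a homomorphism of fields over `k`. -/
abbrev pm {k F F' : Type} [Field k] [Field F] [Field F'] [Algebra k F] [Algebra k F'] {E : Affine k}
    (f : F →ₐ[k] F') : Pt E F →+ Pt E F' :=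
  Point.map (W' := E) f

section one

variable {k F F' : Type} [Field k] [Field F] [Field F'] [Algebra k F] [Algebra k F'] {E : Affine k}

-- BEGIN hgt1
/-- ROW hgt1. `fd_tower` (`CorD/Deg.lean`), cases of `P`. -/
theorem hgt_tower [Algebra F F'] [IsScalarTower k F F'] (P : Pt E F) :
    hgt (pm (IsScalarTower.toAlgHom k F F') P) = hgt P * finrank F F' := by
  cases P with
  | zero =>
    change hgt (pm (IsScalarTower.toAlgHom k F F') 0) = hgt (0 : Pt E F) * finrank F F'
    rw [map_zero]
    change 0 = 0 * _
    rw [zero_mul]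
  | some x y h =>
    change fdeg k (algebraMap F F' x) = fdeg k x * finrank F F'
    exact fd_tower x
-- END hgt1

-- BEGIN hgt2
private theorem hgt2_ne (b c : k) : (X ^ 2 + C b * X + C c : k[X]) ≠ 0 := by
  intro h
  have h1 := congrArg (fun p : k[X] => p.coeff 2) h
  simp [coeff_X, coeff_C] at h1

/-- ROW hgt2. `P = 0`, or `hgt` of `some x y` is `fdeg k x`; `fd_pos`, `const_of_alg` (`CorD/Nrm.lean`): `x` is a
constant; `y` is a root of a monic polynomial of degree 2 over `k`, so algebraic over `k`, so a constant. The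
nonsingularity over `k`: `baseChange_nonsingular` (injective). -/
theorem const_pt [IsAlgClosed k] (hF : IsFunField k F) (P : Pt E F) (h : hgt P = 0) :
    ∃ c : Pt E k, pm (Algebra.ofId k F) c = P := by
  rcases P with _ | ⟨x, y, hP⟩
  · exact ⟨0, rfl⟩
  · have h1 : fdeg k x = 0 := h
    have h2 : ¬ Transcendental k x := fun h3 => by
      have h4 := (fd_pos hF x).2 h3
      omega
    obtain ⟨a, rfl⟩ := const_of_alg h2
    have h5 : ¬ Transcendental k y := by
      intro h6
      apply h6
      have h7 : y ^ 2 + algebraMap k F E.a₁ * algebraMap k F a * y + algebraMap k F E.a₃ * y =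
          algebraMap k F a ^ 3 + algebraMap k F E.a₂ * algebraMap k F a ^ 2 +
            algebraMap k F E.a₄ * algebraMap k F a + algebraMap k F E.a₆ :=
        ((E⁄F).equation_iff _ _).1 hP.1
      refine ⟨X ^ 2 + C (E.a₁ * a + E.a₃) * X + C (-(a ^ 3 + E.a₂ * a ^ 2 + E.a₄ * a + E.a₆)),
        hgt2_ne _ _, ?_⟩
      simp only [map_add, map_mul, map_pow, aeval_X, aeval_C, map_neg]
      linear_combination h7
    obtain ⟨b, rfl⟩ := const_of_alg h5
    have h10 : (E⁄k).Nonsingular a b :=
      (E.baseChange_nonsingular (f := Algebra.ofId k F) (algebraMap k F).injective a b).1 hP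
    exact ⟨.some a b h10, rfl⟩
-- END hgt2

-- BEGIN hgt3
/-- ROW hgt3. `fdeg k (algebraMap k F c) = 0` by `fd_pos` (not transcendental). -/
theorem hgt_const (hF : IsFunField k F) (c : Pt E k) : hgt (pm (Algebra.ofId k F) c) = 0 := by
  rcases c with _ | ⟨x, y, h⟩
  · rfl
  · show fdeg k (algebraMap k F x) = 0
    by_contra h0
    exact (fd_pos hF _).1 (Nat.pos_of_ne_zero h0) (isAlgebraic_algebraMap x)
-- END hgt3

end one

section two

variable {k L M N : Type} [Field k] [Field L] [Field M] [Field N] [Algebra k L] [Algebra k M]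
  [Algebra k N] [Algebra L M] [Algebra L N] [Algebra M N] [IsScalarTower k L M]
  [IsScalarTower k L N] [IsScalarTower k M N] [IsScalarTower L M N] [FiniteDimensional L M]
  [FiniteDimensional M N] [Normal L N] [CharZero k] [CharZero L] {E : Affine k}

/-- The trace of a point, in `N`. -/
def TrS (L : Type) {M N : Type} [Field L] [Field M] [Field N] [Algebra k L] [Algebra k M]
    [Algebra k N] [Algebra L M] [Algebra L N] [IsScalarTower k L M]
    [IsScalarTower k L N] [FiniteDimensional L M] (P : Pt E M) : Pt E N :=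
  ∑ τ : (M →ₐ[L] N), pm (τ.restrictScalars k) P

-- BEGIN crd
/-- ROW crd. `AlgHom.card_of_splits` or `Field.finSepDegree_eq_of_isAlgClosed`-like: `M/L` is separable and every
minimal polynomial of an element of `M` splits in `N` (`Normal L N`, `minpoly.algebraMap_eq`). -/
theorem card_hom : Fintype.card (M →ₐ[L] N) = finrank L M := by
  have h1 : Algebra.IsSeparable L M := inferInstance
  refine AlgHom.card_of_splits L M N fun x => ?_
  have h2 : minpoly L (algebraMap M N x) = minpoly L x :=
    minpoly.algebraMap_eq (algebraMap M N).injective x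
  have h3 := (inferInstance : Normal L N).splits (algebraMap M N x)
  rwa [h2] at h3
-- END crd

-- BEGIN tiv
/-- ROW tiv. `map_sum`, `Point.map_map`, the sum reindexed by `τ ↦ σ.comp τ`. -/
theorem TrS_inv (σ : N ≃ₐ[L] N) (P : Pt E M) :
    pm ((σ : N →ₐ[L] N).restrictScalars k) (TrS (N := N) L P) = TrS (N := N) L P := by
  unfold TrS
  rw [map_sum]
  refine Fintype.sum_bijective (fun τ : M →ₐ[L] N => (σ : N →ₐ[L] N).comp τ) ⟨?_, ?_⟩ _ _
    fun τ => ?_
  · intro a b h
    ext z
    have h1 : σ (a z) = σ (b z) := DFunLike.congr_fun h z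
    exact σ.injective h1
  · intro b
    refine ⟨(σ.symm : N →ₐ[L] N).comp b, ?_⟩
    ext z
    exact σ.apply_symm_apply (b z)
  · exact Point.map_map (W' := E) (τ.restrictScalars k) ((σ : N →ₐ[L] N).restrictScalars k) P
-- END tiv

-- BEGIN dsc
/-- ROW dsc. `IsGalois L N` (normal, characteristic 0); the coordinates are fixed by all automorphisms
(`IsGalois.mem_bot_iff_fixed` or `IntermediateField.fixedField`), so in `L`; `baseChange_nonsingular` for the
injective map. -/
theorem desc (S : Pt E N) (h : ∀ σ : N ≃ₐ[L] N, pm ((σ : N →ₐ[L] N).restrictScalars k) S = S) :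
    ∃ S0 : Pt E L, pm (IsScalarTower.toAlgHom k L N) S0 = S := by
  have h3 : Algebra.IsSeparable L N := inferInstance
  have h4 : IsGalois L N := ⟨⟩
  rcases S with _ | ⟨x, y, hxy⟩
  · exact ⟨0, rfl⟩
  have hx : ∀ σ : N ≃ₐ[L] N, σ x = x ∧ σ y = y := by
    intro σ
    have h5 := h σ
    rw [Point.map_some, Point.some.injEq] at h5
    exact h5
  obtain ⟨a, ha⟩ := IntermediateField.mem_bot.1
    ((InfiniteGalois.mem_bot_iff_fixed (k := L) (K := N) x).2 fun σ => (hx σ).1)
  obtain ⟨b, hb⟩ := IntermediateField.mem_bot.1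
    ((InfiniteGalois.mem_bot_iff_fixed (k := L) (K := N) y).2 fun σ => (hx σ).2)
  subst ha hb
  refine ⟨Point.some a b ((E.baseChange_nonsingular (f := IsScalarTower.toAlgHom k L N)
    (IsScalarTower.toAlgHom k L N).injective ..).1 hxy), rfl⟩
-- END dsc

-- BEGIN thg
/-- ROW thg. `P = some x y`: `τ x` is a conjugate of `x`: `fdeg k (τ x) = fdeg k (algebraMap M N x)` by an automorphism of
`N` over `L` (`minpoly.exists_algEquiv_of_root` as in `push_root`, `CorD/Nrm.lean`, and `fd_map`), `fd_tower`. -/
theorem hgt_conj (τ : M →ₐ[L] N) (P : Pt E M) :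
    hgt (pm (τ.restrictScalars k) P) = hgt P * finrank M N := by
  rcases P with _ | ⟨x, y, h⟩
  · change 0 = 0 * _
    rw [zero_mul]
  · change fdeg k (τ x) = fdeg k x * finrank M N
    have h0 : IsIntegral L x := Algebra.IsIntegral.isIntegral x
    have hm : minpoly L (algebraMap M N x) = minpoly L x :=
      minpoly.algebraMap_eq (algebraMap M N).injective x
    have hi : IsIntegral L (algebraMap M N x) := h0.map (IsScalarTower.toAlgHom L M N)
    have hr : aeval (τ x) (minpoly L (algebraMap M N x)) = 0 := by
      rw [hm, aeval_algHom_apply, minpoly.aeval, map_zero]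
    obtain ⟨σ, hσ⟩ := minpoly.exists_algEquiv_of_root hi.isAlgebraic hr
    have h3 := fd_map (σ.restrictScalars k) (τ x)
    have h4 : σ.restrictScalars k (τ x) = algebraMap M N x := hσ
    rw [h4] at h3
    rw [← h3, fd_tower]
-- END thg

/-- The trace of a point and its height. -/
theorem trace_pt [IsAlgClosed k] (hL : IsFunField k L) [E.IsElliptic] (P : Pt E M) :
    ∃ S : Pt E L, pm (IsScalarTower.toAlgHom k L N) S = TrS (N := N) L P ∧
      hgt S ≤ finrank L M * hgt P := by
  obtain ⟨S, hS⟩ := desc (L := L) (TrS (N := N) L P) (fun σ => TrS_inv σ P)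
  refine ⟨S, hS, ?_⟩
  have f1 : FiniteDimensional L N := Module.Finite.trans M N
  have hN : IsFunField k N := hL.of_finite
  have h1 := hgt_tower (F' := N) S
  rw [hS] at h1
  have h2 := q_sum (hgt (k := k) (F := N) (E := E)) (par hN) Finset.univ
    (fun τ : (M →ₐ[L] N) => pm (τ.restrictScalars k) P)
  have h3 : ∑ τ : (M →ₐ[L] N), hgt (pm (E := E) (τ.restrictScalars k) P) =
      finrank L M * (hgt P * finrank M N) := by
    rw [Finset.sum_congr rfl (fun τ _ => hgt_conj τ P), Finset.sum_const, smul_eq_mul,
      Finset.card_univ, card_hom]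
  rw [h3, Finset.card_univ, card_hom] at h2
  have h4 : finrank L N = finrank L M * finrank M N := (Module.finrank_mul_finrank L M N).symm
  have h5 : 0 < finrank L N := finrank_pos
  refine Nat.le_of_mul_le_mul_right ?_ h5
  calc hgt S * finrank L N = hgt (TrS (N := N) L P) := h1.symm
    _ ≤ finrank L M * (finrank L M * (hgt P * finrank M N)) := h2
    _ = finrank L M * hgt P * finrank L N := by rw [h4]; ring

-- BEGIN mpr
/-- ROW mpr. Both sides are monic of the same degree (`card_hom`), all `τ z` are different roots (two homomorphisms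
with `τ z = τ' z` agree on `L(z) = M`: `IntermediateField.algHom_ext_of_eq_adjoin` or `adjoin` = `⊤` by the degree), so the
product divides the left side (`Finset.prod_dvd_of_coprime`, or `Polynomial.eq_prod_roots`). -/
theorem minpoly_prod {z : M} (h : (minpoly L z).natDegree = finrank L M) :
    (minpoly L z).map (algebraMap L N) = ∏ τ : (M →ₐ[L] N), (X - C (τ z)) ∧
      Function.Injective (fun τ : (M →ₐ[L] N) => τ z) := by
  have h0 : IsIntegral L z := Algebra.IsIntegral.isIntegral z
  have h1 : IntermediateField.adjoin L {z} = ⊤ :=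
    (Field.primitive_element_iff_minpoly_natDegree_eq L z).2 h
  have h2 : Algebra.adjoin L {z} = ⊤ := by
    rw [← IntermediateField.adjoin_simple_toSubalgebra_of_isAlgebraic h0.isAlgebraic, h1,
      IntermediateField.top_toSubalgebra]
  have hinj : Function.Injective (fun τ : (M →ₐ[L] N) => τ z) := by
    intro τ τ' hτ
    refine AlgHom.ext_of_adjoin_eq_top h2 ?_
    intro w hw
    rw [Set.mem_singleton_iff] at hw
    subst hw
    exact hτ
  refine ⟨?_, hinj⟩
  refine Polynomial.eq_of_monic_of_dvd_of_natDegree_le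
    (monic_prod_of_monic _ _ fun τ _ => monic_X_sub_C _) ((minpoly.monic h0).map _) ?_ ?_
  · refine Finset.prod_dvd_of_coprime ?_ ?_
    · intro τ _ τ' _ hne
      exact isCoprime_X_sub_C_of_isUnit_sub
        (sub_ne_zero.2 fun hc => hne (hinj hc)).isUnit
    · intro τ _
      rw [dvd_iff_isRoot, IsRoot.def, eval_map_algebraMap, aeval_algHom_apply, minpoly.aeval,
        map_zero]
  · rw [natDegree_map, h, natDegree_prod_of_monic _ _ fun τ _ => monic_X_sub_C _]
    simp only [natDegree_X_sub_C, Finset.sum_const, smul_eq_mul, mul_one, Finset.card_univ]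
    rw [card_hom]
-- END mpr

end two

end Pool.Agent.CorE
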